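import Pool.Agent.Helper40.AffTwist

set_option autoImplicit false

open scoped TensorProduct
open Coalgebra WithConv

universe u v w

namespace Pool.Agent.Helper40.Aff

variable {k : Type u} [Field k]

/-- the projection `x ↦ 0` -/
noncomputable def pr : AffH k →ₐ[k] AffH k := lift gU 0 (Commute.zero_right _)

lemma pr_m (i : ℤ) (j : ℕ) : pr (m i j : AffH k) = m i 0 * 0 ^ j := by
  rw [pr, lift_m, gU_zpow]

lemma pr_left (i : ℤ) (j : ℕ) :
    TensorProduct.map (pr (k := k)).toLinearMap LinearMap.id (comul (R := k) (m i j : AffH k)) =
      m (i + j) 0 ⊗ₜ m i j := by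
  have : ∀ t : AffH k ⊗[k] AffH k, TensorProduct.map (pr (k := k)).toLinearMap LinearMap.id t =
    Algebra.TensorProduct.map (pr (k := k)) (AlgHom.id k (AffH k)) t := fun t => rfl
  rw [this, comul_eq, comulA_m, map_mul, map_pow]
  simp only [map_add, Algebra.TensorProduct.map_tmul, pr_m, pow_zero, mul_one, AlgHom.id_apply]
  rw [show pr (X : AffH k) = 0 by rw [X, pr_m]; simp]
  rw [TensorProduct.zero_tmul, zero_add, Algebra.TensorProduct.tmul_pow,
    Algebra.TensorProduct.tmul_mul_tmul, X_pow, m_mul]
  have : ((m 1 0 : AffH k)) ^ j = m j 0 := by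
    have := gU_zpow (k := k) (j : ℤ)
    rw [← this]; simp [gU]
  rw [this, m_mul]
  simp

lemma pr_right (i : ℤ) (j : ℕ) :
    TensorProduct.map LinearMap.id (pr (k := k)).toLinearMap (comul (R := k) (m i j : AffH k)) =
      m i j ⊗ₜ m i 0 := by
  have : ∀ t : AffH k ⊗[k] AffH k, TensorProduct.map LinearMap.id (pr (k := k)).toLinearMap t =
    Algebra.TensorProduct.map (AlgHom.id k (AffH k)) (pr (k := k)) t := fun t => rfl
  rw [this, comul_eq, comulA_m, map_mul, map_pow]
  simp only [map_add, Algebra.TensorProduct.map_tmul, pr_m, pow_zero, mul_one, AlgHom.id_apply]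
  rw [show pr (X : AffH k) = 0 by rw [X, pr_m]; simp]
  rw [TensorProduct.tmul_zero, add_zero, Algebra.TensorProduct.tmul_pow,
    Algebra.TensorProduct.tmul_mul_tmul, X_pow, m_mul]
  simp

/-- Every unitary cocentral linear map out of `AffH k` is trivial. -/
lemma cocentral_trivial {A : Type v} [Ring A] [Algebra k A] (r : AffH k →ₗ[k] A) (h1 : r 1 = 1)
    (hc : ∀ h : AffH k, TensorProduct.map r LinearMap.id (comul (R := k) h) =
      TensorProduct.map r LinearMap.id (TensorProduct.comm k _ _ (comul (R := k) h)))
    (h : AffH k) : r h = algebraMap k A (counit (R := k) h) := by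
  classical
  -- step 1: `r (g^i x^j) = 0` for `j > 0`
  have step1 : ∀ (i : ℤ) (j : ℕ), 0 < j → r (m i j) = 0 := by
    intro i j hj
    have e := congrArg (TensorProduct.map LinearMap.id (pr (k := k)).toLinearMap) (hc (m i j))
    have e1 : ∀ t : AffH k ⊗[k] AffH k, TensorProduct.map (LinearMap.id (M := A))
        (pr (k := k)).toLinearMap (TensorProduct.map r LinearMap.id t) =
        TensorProduct.map r LinearMap.id (TensorProduct.map LinearMap.id
          (pr (k := k)).toLinearMap t) := by
      intro t
      induction t using TensorProduct.induction_on with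
      | zero => simp
      | tmul a b => simp
      | add s t hs ht => simp only [map_add, hs, ht]
    have e2 : ∀ t : AffH k ⊗[k] AffH k, TensorProduct.map (LinearMap.id (M := AffH k))
        (pr (k := k)).toLinearMap (TensorProduct.comm k _ _ t) =
        TensorProduct.comm k _ _ (TensorProduct.map (pr (k := k)).toLinearMap
          LinearMap.id t) := by
      intro t
      induction t using TensorProduct.induction_on with
      | zero => simp
      | tmul a b => simp
      | add s t hs ht => simp only [map_add, hs, ht]
    rw [e1, e1, e2, pr_right, pr_left] at e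
    simp only [TensorProduct.comm_tmul, TensorProduct.map_tmul, LinearMap.id_apply] at e
    have e3 := congrArg (fun t => TensorProduct.rid k A (TensorProduct.map LinearMap.id
      ((bas k).coord (i, 0)) t)) e
    simp only [TensorProduct.map_tmul, LinearMap.id_apply, TensorProduct.rid_tmul] at e3
    have c1 : (bas k).coord (i, 0) (m i 0) = 1 := by
      rw [← bas_apply (i, 0), Module.Basis.coord_apply, Module.Basis.repr_self]; simp
    have c2 : (bas k).coord (i, 0) (m (i + j) 0) = 0 := by
      rw [← bas_apply (i + j, 0), Module.Basis.coord_apply, Module.Basis.repr_self]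
      rw [Finsupp.single_apply, if_neg]
      intro h
      simp at h
      omega
    rw [c1, c2, one_smul, zero_smul] at e3
    exact e3
  -- step 2: `r (g^(i+1)) = r (g^i)`
  have step2 : ∀ (i : ℤ), r (m (i + 1) 0) = r (m i 0) := by
    intro i
    have e := hc (m i 1)
    rw [comul_eq, comulA_m, pow_one, mul_add] at e
    simp only [Algebra.TensorProduct.tmul_mul_tmul, X, m_mul, mul_one, map_add,
      TensorProduct.comm_tmul, TensorProduct.map_tmul, LinearMap.id_apply, add_zero, zero_add,
      step1 i 1 one_pos, TensorProduct.zero_tmul] at e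
    have e3 := congrArg (fun t => TensorProduct.rid k A (TensorProduct.map LinearMap.id
      ((bas k).coord (i, 1)) t)) e
    simp only [TensorProduct.map_tmul, LinearMap.id_apply, TensorProduct.rid_tmul] at e3
    have c1 : (bas k).coord (i, 1) (m i 1) = 1 := by
      rw [← bas_apply (i, 1), Module.Basis.coord_apply, Module.Basis.repr_self]; simp
    rw [c1, one_smul, one_smul] at e3
    exact e3
  have step3 : ∀ i : ℤ, r (m i 0) = 1 := by
    intro i
    induction i using Int.induction_on with
    | zero => rw [m_zero, h1]
    | succ n ih => rw [step2, ih]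
    | pred n ih => rw [← step2, sub_add_cancel, ih]
  have : r = (Algebra.linearMap k A) ∘ₗ (counitA : AffH k →ₐ[k] k).toLinearMap := by
    apply lin_ext
    intro i j
    change r (m i j) = algebraMap k A (counitA (m i j))
    rw [counitA_m]
    rcases j with _ | j
    · rw [step3]; simp
    · rw [step1 i _ (Nat.succ_pos j)]; simp
  rw [this]
  rfl

end Pool.Agent.Helper40.Aff
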