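import Pool.Agent.Helper40.AffHopf

set_option autoImplicit false

open scoped TensorProduct
open Coalgebra WithConv

universe u v w

namespace Pool.Agent.Helper40.Aff

variable {k : Type u} [Field k]

/-- The functional `χ = ε + X`, where `X` is the point derivation dual to `x`. -/
noncomputable def chi : AffH k →ₗ[k] k := (bas k).constr k (fun p => if p.2 ≤ 1 then 1 else 0)

lemma chi_m (i : ℤ) (j : ℕ) : chi (m i j : AffH k) = if j ≤ 1 then 1 else 0 := by
  rw [← bas_apply (i, j), chi, Module.Basis.constr_basis]

/-- The convolution inverse of `χ`. -/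
noncomputable def chiInv : AffH k →ₗ[k] k :=
  (bas k).constr k (fun p => (-1) ^ p.2 * (p.2.factorial : k))

lemma chiInv_m (i : ℤ) (j : ℕ) : chiInv (m i j : AffH k) = (-1) ^ j * (j.factorial : k) := by
  rw [← bas_apply (i, j), chiInv, Module.Basis.constr_basis]

lemma chi_mul_X (a : AffH k) : chi (a * X) = counitA a := by
  have : chi ∘ₗ LinearMap.mulRight k (X : AffH k) = (counitA : AffH k →ₐ[k] k).toLinearMap := by
    apply lin_ext
    intro i j
    simp only [LinearMap.comp_apply, LinearMap.mulRight_apply, X, m_mul, chi_m,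
      AlgHom.toLinearMap_apply, counitA_m]
    rcases j with _ | j <;> simp
  exact LinearMap.congr_fun this a

lemma chi_mul_g (a : AffH k) : chi (a * m 1 0) = chi a := by
  have : chi ∘ₗ LinearMap.mulRight k (m 1 0 : AffH k) = chi := by
    apply lin_ext
    intro i j
    simp only [LinearMap.comp_apply, LinearMap.mulRight_apply, m_mul, chi_m, add_zero]
  exact LinearMap.congr_fun this a

lemma comul_m_succ (i : ℤ) (j : ℕ) : comul (R := k) (m i (j + 1) : AffH k) =
    comul (R := k) (m i j : AffH k) * (X ⊗ₜ 1 + m 1 0 ⊗ₜ X) := by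
  rw [comul_eq, comul_eq, comulA_m, comulA_m, pow_succ, mul_assoc]

/-- `a ↦ χ(a₁) a₂` -/
noncomputable def T : AffH k →ₗ[k] AffH k :=
  (TensorProduct.lid k (AffH k)).toLinearMap ∘ₗ (chi.rTensor (AffH k)) ∘ₗ comul

/-- `a ↦ a₁ χ(a₂)` -/
noncomputable def T' : AffH k →ₗ[k] AffH k :=
  (TensorProduct.rid k (AffH k)).toLinearMap ∘ₗ (chi.lTensor (AffH k)) ∘ₗ comul

lemma T_aux (t : AffH k ⊗[k] AffH k) :
    TensorProduct.lid k (AffH k) (chi.rTensor (AffH k) (t * (X ⊗ₜ 1 + m 1 0 ⊗ₜ X))) =
    TensorProduct.lid k (AffH k) ((counitA : AffH k →ₐ[k] k).toLinearMap.rTensor (AffH k) t) +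
    TensorProduct.lid k (AffH k) (chi.rTensor (AffH k) t) * X := by
  induction t using TensorProduct.induction_on with
  | zero => simp
  | tmul a b => simp [mul_add, chi_mul_X, chi_mul_g]
  | add s t hs ht => rw [add_mul, map_add, map_add, hs, ht]; simp [add_mul]; abel

lemma T'_aux (t : AffH k ⊗[k] AffH k) :
    TensorProduct.rid k (AffH k) (chi.lTensor (AffH k) (t * (X ⊗ₜ 1 + m 1 0 ⊗ₜ X))) =
    TensorProduct.rid k (AffH k) ((counitA : AffH k →ₐ[k] k).toLinearMap.lTensor (AffH k) t)
      * m 1 0 +
    TensorProduct.rid k (AffH k) (chi.lTensor (AffH k) t) * X := by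
  induction t using TensorProduct.induction_on with
  | zero => simp
  | tmul a b => simp [mul_add, chi_mul_X]; rw [add_comm]
  | add s t hs ht => rw [add_mul, map_add, map_add, hs, ht]; simp [add_mul]; abel

lemma T_m (i : ℤ) (j : ℕ) : T (m i j : AffH k) = m i j + (j : k) • m i (j - 1) := by
  induction j with
  | zero => 
    simp [T, comul_eq, comulA_g, chi_m]
  | succ n ih =>
    have h := T_aux (comul (R := k) (m i n : AffH k))
    rw [← comul_m_succ] at h
    have h2 : TensorProduct.lid k (AffH k) ((counitA : AffH k →ₐ[k] k).toLinearMap.rTensor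
      (AffH k) (comul (R := k) (m i n : AffH k))) = m i n := by
      have := Coalgebra.rTensor_counit_comul (R := k) (m i n : AffH k)
      change (TensorProduct.lid k (AffH k)) ((LinearMap.rTensor (AffH k) counit) (comul (m i n))) = _
      rw [this]; simp
    rw [h2] at h
    change T (m i (n+1)) = m i n + T (m i n) * X at h
    rw [h, ih]
    rcases n with _ | n
    · simp [X, m_mul, m_zero]; rw [add_comm]
    · simp [X, m_mul, add_mul]
      module

lemma T'_m (i : ℤ) (j : ℕ) : T' (m i j : AffH k) = m i j + (j : k) • m (i + 1) (j - 1) := by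
  induction j with
  | zero => 
    simp [T', comul_eq, comulA_g, chi_m]
  | succ n ih =>
    have h := T'_aux (comul (R := k) (m i n : AffH k))
    rw [← comul_m_succ] at h
    have h2 : TensorProduct.rid k (AffH k) ((counitA : AffH k →ₐ[k] k).toLinearMap.lTensor
      (AffH k) (comul (R := k) (m i n : AffH k))) = m i n := by
      have := Coalgebra.lTensor_counit_comul (R := k) (m i n : AffH k)
      change (TensorProduct.rid k (AffH k)) ((LinearMap.lTensor (AffH k) counit) (comul (m i n))) = _
      rw [this]; simp
    rw [h2] at h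
    change T' (m i (n+1)) = m i n * m 1 0 + T' (m i n) * X at h
    rw [h, ih]
    rcases n with _ | n
    · simp [X, m_mul, m_zero]; rw [add_comm]
    · simp [X, m_mul, add_mul]
      module

lemma chiInv_T (i : ℤ) (j : ℕ) : chiInv (T (m i j : AffH k)) = (0 : k) ^ j := by
  rw [T_m]
  rcases j with _ | n
  · simp [chiInv_m]
  · simp [chiInv_m, Nat.factorial_succ, pow_succ]; ring

lemma chiInv_T' (i : ℤ) (j : ℕ) : chiInv (T' (m i j : AffH k)) = (0 : k) ^ j := by
  rw [T'_m]
  rcases j with _ | n
  · simp [chiInv_m]
  · simp [chiInv_m, Nat.factorial_succ, pow_succ]; ring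

/-- `χ` as a unit of the convolution algebra `H*`. -/
noncomputable def chiU : (WithConv (AffH k →ₗ[k] k))ˣ where
  val := toConv chi
  inv := toConv chiInv
  val_inv := by
    apply WithConv.ofConv_injective
    apply lin_ext
    intro i j
    change LinearMap.mul' k k (TensorProduct.map chi chiInv (comul (R := k) (m i j : AffH k))) =
      algebraMap k k (counit (R := k) (m i j : AffH k))
    have h : ∀ t : AffH k ⊗[k] AffH k, LinearMap.mul' k k (TensorProduct.map chi chiInv t) =
      chiInv (TensorProduct.lid k (AffH k) (chi.rTensor (AffH k) t)) := by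
      intro t
      induction t using TensorProduct.induction_on with
      | zero => simp
      | tmul a b => simp
      | add s t hs ht => simp only [map_add, hs, ht]
    rw [h]
    change chiInv (T (m i j : AffH k)) = _
    rw [chiInv_T, counit_eq, counitA_m]; simp
  inv_val := by
    apply WithConv.ofConv_injective
    apply lin_ext
    intro i j
    change LinearMap.mul' k k (TensorProduct.map chiInv chi (comul (R := k) (m i j : AffH k))) =
      algebraMap k k (counit (R := k) (m i j : AffH k))
    have h : ∀ t : AffH k ⊗[k] AffH k, LinearMap.mul' k k (TensorProduct.map chiInv chi t) =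
      chiInv (TensorProduct.rid k (AffH k) (chi.lTensor (AffH k) t)) := by
      intro t
      induction t using TensorProduct.induction_on with
      | zero => simp
      | tmul a b => simp [mul_comm]
      | add s t hs ht => simp only [map_add, hs, ht]
    rw [h]
    change chiInv (T' (m i j : AffH k)) = _
    rw [chiInv_T', counit_eq, counitA_m]; simp

/-- `s : H → H*`, `g ↦ χ`, `x ↦ 0`. -/
noncomputable def s : AffH k →ₐ[k] WithConv (AffH k →ₗ[k] k) := lift chiU 0 (Commute.zero_right _)

lemma s_m (i : ℤ) (j : ℕ) : s (m i j : AffH k) = ((chiU ^ i : (WithConv (AffH k →ₗ[k] k))ˣ) :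
    WithConv (AffH k →ₗ[k] k)) * 0 ^ j := by
  rw [s, lift_m]

end Pool.Agent.Helper40.Aff
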