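import Pool.Agent.Helper40.ConvLemmas

set_option autoImplicit false

open scoped TensorProduct
open Coalgebra WithConv

universe u v w

namespace Pool.Agent.Helper40.Aff

open Pool.Agent.Helper40.Conv

variable {k : Type u} [Field k]

/-- the dual with its convolution product -/
abbrev Dual (k : Type u) [Field k] := WithConv (AffH k →ₗ[k] k)

/-- `σ(a, l) = s(a)(l)` -/
noncomputable def sig : AffH k ⊗[k] AffH k →ₗ[k] k := unc (s (k := k)).toLinearMap

/-- `σ⁻¹(a, l) = s(S a)(l)` -/
noncomputable def sigInv : AffH k ⊗[k] AffH k →ₗ[k] k :=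
  unc ((s (k := k)).toLinearMap ∘ₗ HopfAlgebra.antipode k)

lemma sig_tmul (a l : AffH k) : sig (a ⊗ₜ l) = (s a).ofConv l := by
  rw [sig, unc_tmul]; rfl

lemma sig_mul_inv : toConv (sig (k := k)) * toConv sigInv = 1 := by
  rw [sig, sigInv, unc_mul]
  apply WithConv.ofConv_injective
  apply TensorProduct.ext'
  intro a l
  change unc _ (a ⊗ₜ l) = counit (R := k) (a ⊗ₜ[k] l)
  rw [unc_tmul, TensorProduct.counit_tmul]
  have h : ∀ t : AffH k ⊗[k] AffH k,
      LinearMap.mul' k (Dual k) (TensorProduct.map (s (k := k)).toLinearMap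
        ((s (k := k)).toLinearMap ∘ₗ HopfAlgebra.antipode k) t) =
      s (LinearMap.mul' k (AffH k) ((HopfAlgebra.antipode k).lTensor (AffH k) t)) := by
    intro t
    induction t using TensorProduct.induction_on with
    | zero => simp
    | tmul a b => simp
    | add s t hs ht => simp only [map_add, hs, ht]
  simp only [LinearMap.comp_apply]
  rw [h, HopfAlgebra.mul_antipode_lTensor_comul_apply]
  rw [AlgHom.commutes, Algebra.algebraMap_eq_smul_one]
  simp [mul_comm]

lemma inv_mul_sig : toConv (sigInv (k := k)) * toConv sig = 1 := by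
  rw [sig, sigInv, unc_mul]
  apply WithConv.ofConv_injective
  apply TensorProduct.ext'
  intro a l
  change unc _ (a ⊗ₜ l) = counit (R := k) (a ⊗ₜ[k] l)
  rw [unc_tmul, TensorProduct.counit_tmul]
  have h : ∀ t : AffH k ⊗[k] AffH k,
      LinearMap.mul' k (Dual k) (TensorProduct.map 
        ((s (k := k)).toLinearMap ∘ₗ HopfAlgebra.antipode k) (s (k := k)).toLinearMap t) =
      s (LinearMap.mul' k (AffH k) ((HopfAlgebra.antipode k).rTensor (AffH k) t)) := by
    intro t
    induction t using TensorProduct.induction_on with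
    | zero => simp
    | tmul a b => simp
    | add s t hs ht => simp only [map_add, hs, ht]
  simp only [LinearMap.comp_apply]
  rw [h, HopfAlgebra.mul_antipode_rTensor_comul_apply]
  rw [AlgHom.commutes, Algebra.algebraMap_eq_smul_one]
  simp [mul_comm]

/-- `(s ⊗ id) Δ(g^i x^j) = χ^(i+j) ⊗ g^i x^j` -/
lemma s_left (i : ℤ) (j : ℕ) :
    TensorProduct.map (s (k := k)).toLinearMap LinearMap.id (comul (R := k) (m i j : AffH k)) =
      ((chiU ^ (i + j) : (Dual k)ˣ) : Dual k) ⊗ₜ m i j := by
  have : ∀ t : AffH k ⊗[k] AffH k, TensorProduct.map (s (k := k)).toLinearMap LinearMap.id t =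
    Algebra.TensorProduct.map (s (k := k)) (AlgHom.id k (AffH k)) t := fun t => rfl
  rw [this, comul_eq, comulA_m, map_mul, map_pow]
  simp only [map_add, Algebra.TensorProduct.map_tmul, s_m, pow_zero, mul_one, AlgHom.id_apply,
    zpow_one]
  rw [show s (X : AffH k) = 0 by rw [X, s_m]; simp]
  rw [TensorProduct.zero_tmul, zero_add, Algebra.TensorProduct.tmul_pow,
    Algebra.TensorProduct.tmul_mul_tmul, X_pow, m_mul, zpow_add]
  simp

/-- `(id ⊗ s) Δ(g^i x^j) = g^i x^j ⊗ χ^i` -/
lemma s_right (i : ℤ) (j : ℕ) :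
    TensorProduct.map LinearMap.id (s (k := k)).toLinearMap (comul (R := k) (m i j : AffH k)) =
      m i j ⊗ₜ ((chiU ^ i : (Dual k)ˣ) : Dual k) := by
  have : ∀ t : AffH k ⊗[k] AffH k, TensorProduct.map LinearMap.id (s (k := k)).toLinearMap t =
    Algebra.TensorProduct.map (AlgHom.id k (AffH k)) (s (k := k)) t := fun t => rfl
  rw [this, comul_eq, comulA_m, map_mul, map_pow]
  simp only [map_add, Algebra.TensorProduct.map_tmul, s_m, pow_zero, mul_one, AlgHom.id_apply]
  rw [show s (X : AffH k) = 0 by rw [X, s_m]; simp]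
  rw [TensorProduct.tmul_zero, add_zero, Algebra.TensorProduct.tmul_pow,
    Algebra.TensorProduct.tmul_mul_tmul, X_pow, m_mul]
  simp

lemma units_aux1 {M : Type v} [Monoid M] (u : Mˣ) (i : ℤ) :
    ((u ^ i : Mˣ) : M) * (u : M) = (u : M) * ((u ^ i : Mˣ) : M) := by
  rw [← Units.val_mul, ← Units.val_mul, ← zpow_add_one, ← zpow_one_add, add_comm]

lemma units_aux2 {M : Type v} [Monoid M] (u : Mˣ) (i : ℤ) :
    ((u ^ (i + 1) : Mˣ) : M) = (u : M) * ((u ^ i : Mˣ) : M) := by
  rw [← Units.val_mul, ← zpow_one_add, add_comm]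

lemma val_chiU : ((chiU : (Dual k)ˣ) : Dual k) = toConv chi := rfl

lemma chi_comp_mulLeft (i : ℤ) (j : ℕ) :
    chi ∘ₗ LinearMap.mulLeft k (m i j : AffH k) = 
    if j = 0 then chi else if j = 1 then (counitA : AffH k →ₐ[k] k).toLinearMap else 0 := by
  apply lin_ext
  intro i' j'
  simp only [LinearMap.comp_apply, LinearMap.mulLeft_apply, m_mul, chi_m]
  rcases j with _ | _ | j <;> rcases j' with _ | _ | j' <;>
    simp [chi_m, counitA_m] <;> omega

/-- the key identity: `σ(a₁, l₁) χ(a₂ l₂) = χ(a₁) χ(l₁) σ(a₂, l₂)` -/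
lemma key : SemiconjBy (toConv (sig (k := k))) (pull (toConv chi)) (box (toConv chi)) := by
  have hp : pull (toConv (chi (k := k))) = toConv (unc
      ((WithConv.linearEquiv k (AffH k →ₗ[k] k)).symm.toLinearMap ∘ₗ
        (LinearMap.mul k (AffH k)).compr₂ chi)) := by
    apply WithConv.ofConv_injective
    apply TensorProduct.ext'
    intro a l
    rw [pull_apply]
    change _ = unc _ (a ⊗ₜ l)
    rw [unc_tmul]
    simp
  have hb : box (toConv (chi (k := k))) = toConv (unc
      ((WithConv.linearEquiv k (AffH k →ₗ[k] k)).symm.toLinearMap ∘ₗ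
        (LinearMap.toSpanSingleton k _ chi) ∘ₗ chi)) := by
    apply WithConv.ofConv_injective
    apply TensorProduct.ext'
    intro a l
    rw [box_apply]
    change _ = unc _ (a ⊗ₜ l)
    rw [unc_tmul]
    simp
  unfold SemiconjBy
  rw [hp, hb, sig, unc_mul, unc_mul]
  congr 2
  apply lin_ext
  intro i j
  simp only [LinearMap.comp_apply]
  have h1 : ∀ (f : AffH k →ₗ[k] Dual k) (t : AffH k ⊗[k] AffH k),
      LinearMap.mul' k (Dual k) (TensorProduct.map (s (k := k)).toLinearMap f t) =
      LinearMap.mul' k (Dual k) (TensorProduct.map LinearMap.id f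
        (TensorProduct.map (s (k := k)).toLinearMap LinearMap.id t)) := by
    intro f t
    rw [← LinearMap.comp_apply (TensorProduct.map LinearMap.id f), ← TensorProduct.map_comp]
    simp
  have h2 : ∀ (f : AffH k →ₗ[k] Dual k) (t : AffH k ⊗[k] AffH k),
      LinearMap.mul' k (Dual k) (TensorProduct.map f (s (k := k)).toLinearMap t) =
      LinearMap.mul' k (Dual k) (TensorProduct.map f LinearMap.id
        (TensorProduct.map LinearMap.id (s (k := k)).toLinearMap t)) := by
    intro f t
    rw [← LinearMap.comp_apply (TensorProduct.map f LinearMap.id), ← TensorProduct.map_comp]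
    simp
  rw [h1, h2, s_left, s_right]
  simp only [TensorProduct.map_tmul, LinearMap.id_apply, LinearMap.mul'_apply,
    LinearMap.comp_apply]
  have hF : (WithConv.linearEquiv k (AffH k →ₗ[k] k)).symm.toLinearMap
      (((LinearMap.mul k (AffH k)).compr₂ chi) (m i j)) =
      toConv (chi ∘ₗ LinearMap.mulLeft k (m i j)) := rfl
  have hG : (WithConv.linearEquiv k (AffH k →ₗ[k] k)).symm.toLinearMap
      ((LinearMap.toSpanSingleton k (AffH k →ₗ[k] k) chi) (chi (m i j : AffH k))) =
      chi (m i j : AffH k) • toConv chi := by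
    rw [LinearMap.toSpanSingleton_apply, map_smul]
    rfl
  rw [hF, hG, chi_comp_mulLeft, chi_m, ← val_chiU]
  rcases j with _ | _ | j
  · rw [if_pos rfl, if_pos (Nat.zero_le 1), one_smul, Nat.cast_zero, add_zero]
    exact units_aux1 _ _
  · rw [if_neg (by omega), if_pos (by omega), if_pos (by omega), one_smul, Nat.cast_one]
    rw [units_aux2]
    exact mul_one _
  · rw [if_neg (by omega), if_neg (by omega), if_neg (by omega), zero_smul, zero_mul]
    exact mul_zero _

/-- the identity for all powers of `g` -/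
lemma key_zpow (i : ℤ) : SemiconjBy (toConv (sig (k := k))) (pull (s (m i 0 : AffH k)))
    (box (s (m i 0 : AffH k))) := by
  have h := (key (k := k))
  have hP : pull (toConv (chi (k := k))) = ((Units.map pull (chiU (k := k)) :
    (WithConv (AffH k ⊗[k] AffH k →ₗ[k] k))ˣ) : WithConv (AffH k ⊗[k] AffH k →ₗ[k] k)) := rfl
  have hQ : box (toConv (chi (k := k))) = ((Units.map box (chiU (k := k)) :
    (WithConv (AffH k ⊗[k] AffH k →ₗ[k] k))ˣ) : WithConv (AffH k ⊗[k] AffH k →ₗ[k] k)) := rfl
  rw [hP, hQ] at h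
  have h' := h.units_zpow_right i
  rw [← map_zpow, ← map_zpow] at h'
  rw [s_m, pow_zero, mul_one]
  exact h'

end Pool.Agent.Helper40.Aff
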