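import Mathlib

set_option autoImplicit false

open scoped TensorProduct
open Coalgebra

universe u v w

namespace Pool.Agent.Helper40.Aff

section construction

variable (k : Type u) [Field k]

/-- `k[g, g⁻¹, x]`. -/
def AffH : Type u := AddMonoidAlgebra k (ℤ × ℕ)

noncomputable instance : CommRing (AffH k) := inferInstanceAs (CommRing (AddMonoidAlgebra k (ℤ × ℕ)))
noncomputable instance : Algebra k (AffH k) :=
  inferInstanceAs (Algebra k (AddMonoidAlgebra k (ℤ × ℕ)))

variable {k}

/-- the monomial `g ^ i * x ^ j` -/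
noncomputable def m (i : ℤ) (j : ℕ) : AffH k := AddMonoidAlgebra.single (i, j) (1 : k)

variable (k) in
/-- the monomial basis -/
noncomputable def bas : Module.Basis (ℤ × ℕ) k (AffH k) := AddMonoidAlgebra.basis (ℤ × ℕ) k

lemma bas_apply (p : ℤ × ℕ) : bas k p = m p.1 p.2 := AddMonoidAlgebra.basis_apply k p

lemma m_mul (i i' : ℤ) (j j' : ℕ) : (m i j : AffH k) * m i' j' = m (i + i') (j + j') := by
  have := AddMonoidAlgebra.single_mul_single (R := k) (i, j) (i', j') (1 : k) 1
  rw [mul_one] at this
  exact this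

lemma m_zero : (m 0 0 : AffH k) = 1 := rfl

/-- `g` as a unit -/
noncomputable def gU : (AffH k)ˣ where
  val := m 1 0
  inv := m (-1) 0
  val_inv := by rw [m_mul]; simp [m_zero]
  inv_val := by rw [m_mul]; simp [m_zero]

/-- `x` -/
noncomputable def X : AffH k := m 0 1

lemma gU_zpow (i : ℤ) : ((gU ^ i : (AffH k)ˣ) : AffH k) = m i 0 := by
  induction i using Int.induction_on with
  | zero => simp [m_zero]
  | succ n ih => rw [zpow_add_one, Units.val_mul, ih]; simp [gU, m_mul]
  | pred n ih => rw [zpow_sub_one, Units.val_mul, ih]; simp [gU, m_mul, sub_eq_add_neg]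

lemma X_pow (j : ℕ) : (X ^ j : AffH k) = m 0 j := by
  induction j with
  | zero => simp [m_zero]
  | succ n ih => rw [pow_succ, ih]; simp [X, m_mul]

lemma m_eq (i : ℤ) (j : ℕ) : (m i j : AffH k) = m i 0 * X ^ j := by
  rw [X_pow, m_mul]; simp

/-- universal property -/
noncomputable def lift {B : Type v} [Ring B] [Algebra k B] (u : Bˣ) (y : B)
    (hc : Commute (u : B) y) : AffH k →ₐ[k] B :=
  AddMonoidAlgebra.lift k B (ℤ × ℕ)
    { toFun := fun p => ((u ^ (Multiplicative.toAdd p).1 : Bˣ) : B) * y ^ (Multiplicative.toAdd p).2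
      map_one' := by simp
      map_mul' := by
        intro p q
        have h1 : Commute y (((u ^ (Multiplicative.toAdd q).1 : Bˣ) : B)) := by
          have : Commute (((u ^ (Multiplicative.toAdd q).1 : Bˣ) : B)) y := by
            exact Commute.units_zpow_left hc _
          exact this.symm
        have h2 := h1.pow_left (Multiplicative.toAdd p).2
        simp only [toAdd_mul, Prod.fst_add, Prod.snd_add, zpow_add, Units.val_mul, pow_add]
        rw [mul_assoc, mul_assoc, ← mul_assoc (y ^ _) _ (y ^ _), h2.eq]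
        simp [mul_assoc] }

lemma lift_m {B : Type v} [Ring B] [Algebra k B] (u : Bˣ) (y : B)
    (hc : Commute (u : B) y) (i : ℤ) (j : ℕ) :
    lift (k := k) u y hc (m i j) = ((u ^ i : Bˣ) : B) * y ^ j := by
  simp only [lift, m]
  erw [AddMonoidAlgebra.lift_single]
  simp

/-- `AffH k` is spanned by the monomials. -/
lemma lin_ext {M : Type v} [AddCommMonoid M] [Module k M] {f g : AffH k →ₗ[k] M}
    (h : ∀ i j, f (m i j) = g (m i j)) : f = g := by
  apply (bas k).ext
  intro p
  rw [bas_apply]
  exact h _ _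

lemma algHom_ext {B : Type v} [Semiring B] [Algebra k B] {f g : AffH k →ₐ[k] B}
    (h : ∀ i j, f (m i j) = g (m i j)) : f = g := by
  apply AlgHom.toLinearMap_injective
  exact lin_ext h

lemma algHom_ext' {B : Type v} [Semiring B] [Algebra k B] {f g : AffH k →ₐ[k] B}
    (h1 : f (m 1 0) = g (m 1 0)) (h2 : f (m 0 1) = g (m 0 1)) : f = g := by
  apply algHom_ext
  intro i j
  have hu : Units.map (f : AffH k →* B) gU = Units.map (g : AffH k →* B) gU := by
    ext
    exact h1
  have e1 : f (m i 0) = g (m i 0) := by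
    rw [← gU_zpow]
    have := congrArg (fun u : Bˣ => ((u ^ i : Bˣ) : B)) hu
    simpa [← map_zpow] using this
  rw [m_eq, map_mul, map_mul, e1, map_pow, map_pow]
  rw [show (X : AffH k) = m 0 1 from rfl, h2]

/-- `g ⊗ g` as a unit -/
noncomputable def ggU : (AffH k ⊗[k] AffH k)ˣ where
  val := m 1 0 ⊗ₜ m 1 0
  inv := m (-1) 0 ⊗ₜ m (-1) 0
  val_inv := by
    rw [Algebra.TensorProduct.tmul_mul_tmul, m_mul]; simp [m_zero, Algebra.TensorProduct.one_def]
  inv_val := by
    rw [Algebra.TensorProduct.tmul_mul_tmul, m_mul]; simp [m_zero, Algebra.TensorProduct.one_def]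

lemma ggU_zpow (i : ℤ) : ((ggU ^ i : (AffH k ⊗[k] AffH k)ˣ) : AffH k ⊗[k] AffH k)
    = m i 0 ⊗ₜ m i 0 := by
  induction i using Int.induction_on with
  | zero => simp [m_zero, Algebra.TensorProduct.one_def]
  | succ n ih => rw [zpow_add_one, Units.val_mul, ih]; simp [ggU, m_mul]
  | pred n ih => rw [zpow_sub_one, Units.val_mul, ih]; simp [ggU, m_mul, sub_eq_add_neg]

/-- the comultiplication -/
noncomputable def comulA : AffH k →ₐ[k] AffH k ⊗[k] AffH k :=
  lift ggU (X ⊗ₜ 1 + m 1 0 ⊗ₜ X) (Commute.all _ _)

/-- the counit -/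
noncomputable def counitA : AffH k →ₐ[k] k := lift 1 0 (Commute.all _ _)

/-- the antipode -/
noncomputable def antiA : AffH k →ₐ[k] AffH k := lift gU⁻¹ (- (m (-1) 1)) (Commute.all _ _)

lemma comulA_m (i : ℤ) (j : ℕ) : comulA (m i j : AffH k) =
    (m i 0 ⊗ₜ m i 0) * (X ⊗ₜ 1 + m 1 0 ⊗ₜ X) ^ j := by
  rw [comulA, lift_m, ggU_zpow]

lemma comulA_g (i : ℤ) : comulA (m i 0 : AffH k) = m i 0 ⊗ₜ m i 0 := by
  rw [comulA_m]; simp

lemma comulA_x : comulA (X : AffH k) = X ⊗ₜ 1 + m 1 0 ⊗ₜ X := by
  rw [X, comulA_m]; simp [m_zero, Algebra.TensorProduct.one_def]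
  rw [← Algebra.TensorProduct.one_def]; simp [X]

lemma counitA_m (i : ℤ) (j : ℕ) : counitA (m i j : AffH k) = (0 : k) ^ j := by
  rw [counitA, lift_m]; simp

lemma antiA_m (i : ℤ) (j : ℕ) : antiA (m i j : AffH k) = m (-i) 0 * (- (m (-1) 1)) ^ j := by
  rw [antiA, lift_m, inv_zpow', gU_zpow]

noncomputable instance instBialg : Bialgebra k (AffH k) :=
  Bialgebra.ofAlgHom comulA counitA
    (by
      apply algHom_ext'
      · simp [comulA_g]
      · change _ = (Algebra.TensorProduct.map (AlgHom.id k (AffH k)) comulA).comp comulA X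
        change ((Algebra.TensorProduct.assoc k k k (AffH k) (AffH k) (AffH k)).toAlgHom.comp
          ((Algebra.TensorProduct.map comulA (AlgHom.id k (AffH k))).comp comulA)) X = _
        simp [comulA_x, comulA_g, TensorProduct.tmul_add, TensorProduct.add_tmul,
          Algebra.TensorProduct.one_def, add_assoc])
    (by
      apply algHom_ext'
      · simp [comulA_g, counitA_m]
      · change ((Algebra.TensorProduct.map counitA (AlgHom.id k (AffH k))).comp comulA) X = _
        have : counitA (X : AffH k) = 0 := by simp [X, counitA_m]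
        simp [comulA_x, this, counitA_m]
        rfl)
    (by
      apply algHom_ext'
      · simp [comulA_g, counitA_m]
      · change ((Algebra.TensorProduct.map (AlgHom.id k (AffH k)) counitA).comp comulA) X = _
        have : counitA (X : AffH k) = 0 := by simp [X, counitA_m]
        simp [comulA_x, this]
        rfl)

lemma comul_eq (a : AffH k) : comul (R := k) a = comulA a := rfl
lemma counit_eq (a : AffH k) : counit (R := k) a = counitA a := rfl


lemma anti_g : antiA (m 1 0 : AffH k) = m (-1) 0 := by simp [antiA_m]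

lemma anti_x : antiA (X : AffH k) = - m (-1) 1 := by simp [X, antiA_m, m_zero]

noncomputable instance instHopf : HopfAlgebra k (AffH k) :=
  HopfAlgebra.ofAlgHom antiA
    (by
      apply algHom_ext'
      · change Algebra.TensorProduct.lift antiA (AlgHom.id k (AffH k)) (fun _ ↦ Commute.all _) (comulA (m 1 0)) = algebraMap k (AffH k) (counitA (m 1 0))
        rw [comulA_g, counitA_m, Algebra.TensorProduct.lift_tmul, anti_g]
        simp [m_mul, m_zero]
      · change Algebra.TensorProduct.lift antiA (AlgHom.id k (AffH k)) (fun _ ↦ Commute.all _) (comulA X) = algebraMap k (AffH k) (counitA (m 0 1))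
        rw [comulA_x, counitA_m, map_add, Algebra.TensorProduct.lift_tmul,
          Algebra.TensorProduct.lift_tmul, anti_g, anti_x]
        simp [X, m_mul])
    (by
      apply algHom_ext'
      · change Algebra.TensorProduct.lift (AlgHom.id k (AffH k)) antiA (fun _ _ ↦ Commute.all _ _) (comulA (m 1 0)) = algebraMap k (AffH k) (counitA (m 1 0))
        rw [comulA_g, counitA_m, Algebra.TensorProduct.lift_tmul, anti_g]
        simp [m_mul, m_zero]
      · change Algebra.TensorProduct.lift (AlgHom.id k (AffH k)) antiA (fun _ _ ↦ Commute.all _ _) (comulA X) = algebraMap k (AffH k) (counitA (m 0 1))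
        rw [comulA_x, counitA_m, map_add, Algebra.TensorProduct.lift_tmul,
          Algebra.TensorProduct.lift_tmul, anti_x]
        simp [X, m_mul])

end construction

end Pool.Agent.Helper40.Aff
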