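import Pool.Agent.Helper40.AffCocycle

set_option autoImplicit false

open scoped TensorProduct
open Coalgebra WithConv

universe u v w

namespace Pool.Agent.Helper40.Aff

open Pool.Agent.Helper40.Conv

variable {k : Type u} [Field k]

lemma ss_comul (i : ℤ) (j : ℕ) :
    TensorProduct.map (s (k := k)).toLinearMap (s (k := k)).toLinearMap
      (comul (R := k) (m i j : AffH k)) =
      s (m i j : AffH k) ⊗ₜ ((chiU ^ i : (Dual k)ˣ) : Dual k) := by
  have h := congrArg (TensorProduct.map (s (k := k)).toLinearMap LinearMap.id) (s_right (k := k) i j)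
  rw [← LinearMap.comp_apply, ← TensorProduct.map_comp] at h
  simpa using h

/-- Auxiliary bilinear map on the dual. -/
noncomputable def Caux (g l : AffH k) : Dual k →ₗ[k] Dual k →ₗ[k] k :=
  LinearMap.mk₂ k (fun φ ψ => ∑ b ∈ (ℛ k g).index,
      φ.ofConv ((ℛ k g).left b) * (ψ * s ((ℛ k g).right b)).ofConv l)
    (by intro φ φ' ψ; simp [add_mul, Finset.sum_add_distrib])
    (by intro c φ ψ; simp [Finset.mul_sum, mul_assoc])
    (by intro φ ψ ψ'; rw [← Finset.sum_add_distrib]
        refine Finset.sum_congr rfl fun b _ => ?_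
        rw [add_mul, WithConv.ofConv_add, LinearMap.add_apply, mul_add])
    (by intro c φ ψ; rw [smul_eq_mul, Finset.mul_sum]
        refine Finset.sum_congr rfl fun b _ => ?_
        rw [smul_mul_assoc, WithConv.ofConv_smul, LinearMap.smul_apply, smul_eq_mul]
        ring)

lemma Caux_apply (g l : AffH k) (φ ψ : Dual k) : Caux g l φ ψ = ∑ b ∈ (ℛ k g).index,
      φ.ofConv ((ℛ k g).left b) * (ψ * s ((ℛ k g).right b)).ofConv l := rfl

/-- The cocycle identity. -/
lemma cocycle (h g l : AffH k) :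
    ∑ i ∈ (ℛ k h).index, ∑ j ∈ (ℛ k g).index,
      sig ((ℛ k h).left i ⊗ₜ[k] (ℛ k g).left j) *
        sig (((ℛ k h).right i * (ℛ k g).right j) ⊗ₜ[k] l) =
    ∑ j ∈ (ℛ k g).index, ∑ n ∈ (ℛ k l).index,
      sig ((ℛ k g).left j ⊗ₜ[k] (ℛ k l).left n) *
        sig (h ⊗ₜ[k] ((ℛ k g).right j * (ℛ k l).right n)) := by
  -- left-hand side as a linear map in `h`
  have hL : ∑ i ∈ (ℛ k h).index, ∑ j ∈ (ℛ k g).index,
      sig ((ℛ k h).left i ⊗ₜ[k] (ℛ k g).left j) *
        sig (((ℛ k h).right i * (ℛ k g).right j) ⊗ₜ[k] l) =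
      TensorProduct.lift (Caux g l) (TensorProduct.map (s (k := k)).toLinearMap
        (s (k := k)).toLinearMap (comul (R := k) h)) := by
    rw [← (ℛ k h).eq]
    simp only [map_sum, TensorProduct.map_tmul, TensorProduct.lift.tmul, Caux_apply, sig_tmul,
      map_mul, AlgHom.toLinearMap_apply]
  have hR : ∑ j ∈ (ℛ k g).index, ∑ n ∈ (ℛ k l).index,
      sig ((ℛ k g).left j ⊗ₜ[k] (ℛ k l).left n) *
        sig (h ⊗ₜ[k] ((ℛ k g).right j * (ℛ k l).right n)) =
      (toConv (sig (k := k)) * pull (s h)).ofConv (g ⊗ₜ[k] l) := by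
    have := conv_tmul (sig (k := k)) (pull (s h)).ofConv g l
    rw [WithConv.toConv_ofConv] at this
    rw [this]
    simp only [pull_apply, sig_tmul]
  rw [hL, hR]
  -- reduce to monomials
  let L : AffH k →ₗ[k] k := TensorProduct.lift (Caux g l) ∘ₗ TensorProduct.map
    (s (k := k)).toLinearMap (s (k := k)).toLinearMap ∘ₗ comul
  let R : AffH k →ₗ[k] k := 
    { toFun := fun h => (toConv (sig (k := k)) * pull (s h)).ofConv (g ⊗ₜ[k] l)
      map_add' := by
        intro a b
        have : pull (s (a + b)) = pull (s a) + pull (s b) := by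
          rw [map_add]; rfl
        rw [this, mul_add]; rfl
      map_smul' := by
        intro c a
        have : pull (s (c • a)) = c • pull (s a) := by
          rw [map_smul]; rfl
        rw [this, mul_smul_comm]; rfl }
  suffices L = R from LinearMap.congr_fun this h
  apply lin_ext
  intro i j
  change TensorProduct.lift (Caux g l) (TensorProduct.map
    (s (k := k)).toLinearMap (s (k := k)).toLinearMap (comul (R := k) (m i j : AffH k))) =
    (toConv (sig (k := k)) * pull (s (m i j))).ofConv (g ⊗ₜ[k] l)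
  rw [ss_comul, TensorProduct.lift.tmul, Caux_apply]
  rcases j with _ | j
  · rw [(key_zpow i).eq]
    have := conv_tmul (box (s (m i 0 : AffH k))).ofConv (sig (k := k)) g l
    rw [WithConv.toConv_ofConv] at this
    rw [this]
    refine Finset.sum_congr rfl fun b _ => ?_
    have hs : s (m i 0 : AffH k) = ((chiU ^ i : (Dual k)ˣ) : Dual k) := by
      rw [s_m, pow_zero, mul_one]
    rw [conv_apply, Finset.mul_sum]
    refine Finset.sum_congr rfl fun c _ => ?_
    rw [box_apply, sig_tmul, hs]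
    ring
  · have h0 : s (m i (j+1) : AffH k) = 0 := by
      rw [s_m, pow_succ, mul_zero, mul_zero]
    rw [h0]
    have hp : pull (0 : Dual k) = 0 := rfl
    rw [hp, mul_zero]
    simp

/-- evaluation at `1` is multiplicative on the dual -/
noncomputable def evalOne : Dual k →* k where
  toFun φ := φ.ofConv 1
  map_one' := by
    change algebraMap k k (counit (R := k) (1 : AffH k)) = 1
    simp
  map_mul' φ ψ := by
    change LinearMap.mul' k k (TensorProduct.map φ.ofConv ψ.ofConv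
      (comul (R := k) (1 : AffH k))) = _
    rw [Bialgebra.comul_one, Algebra.TensorProduct.one_def, TensorProduct.map_tmul,
      LinearMap.mul'_apply]

lemma chiU_zpow_one (i : ℤ) : ((chiU ^ i : (Dual k)ˣ) : Dual k).ofConv (1 : AffH k) = 1 := by
  have h : (Units.map (evalOne (k := k)) chiU) = 1 := by
    apply Units.ext
    change chi (m 0 0 : AffH k) = 1
    rw [chi_m]; simp
  have h2 : (Units.map (evalOne (k := k)) (chiU ^ i)) = 1 := by
    rw [map_zpow, h, one_zpow]
  exact congrArg Units.val h2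

lemma sig_one_right (h : AffH k) : sig (h ⊗ₜ[k] 1) = counit (R := k) h := by
  rw [sig_tmul, counit_eq]
  have : (LinearMap.applyₗ (R := k) (1 : AffH k)) ∘ₗ
      (WithConv.linearEquiv k (AffH k →ₗ[k] k)).toLinearMap ∘ₗ (s (k := k)).toLinearMap =
      (counitA : AffH k →ₐ[k] k).toLinearMap := by
    apply lin_ext
    intro i j
    change (s (m i j)).ofConv 1 = counitA (m i j)
    rw [s_m, counitA_m]
    change evalOne (((chiU ^ i : (Dual k)ˣ) : Dual k) * 0 ^ j) = _
    rw [map_mul]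
    change ((chiU ^ i : (Dual k)ˣ) : Dual k).ofConv (1 : AffH k) * evalOne ((0 : Dual k) ^ j) = _
    rw [chiU_zpow_one, one_mul, map_pow]
    have : evalOne (0 : Dual k) = 0 := rfl
    rw [this]
  exact LinearMap.congr_fun this h

lemma sig_one_left (h : AffH k) : sig (1 ⊗ₜ[k] h) = counit (R := k) h := by
  rw [sig_tmul, map_one]
  rfl

lemma s_X : s (X : AffH k) = 0 := by
  rw [X, s_m, pow_one, mul_zero]

lemma s_g : s (m 1 0 : AffH k) = toConv chi := by
  rw [s_m, pow_zero, mul_one, zpow_one]; rfl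

lemma s_ginv_ofConv : (s (m (-1) 0 : AffH k)).ofConv = chiInv := by
  rw [s_m, pow_zero, mul_one, zpow_neg, zpow_one]; rfl

lemma sigInv_tmul (a l : AffH k) : sigInv (a ⊗ₜ l) = (s (antiA a)).ofConv l := by
  rw [sigInv, unc_tmul]; rfl

lemma comul_gx : comul (R := k) ((m 1 0 : AffH k) ⊗ₜ[k] (X : AffH k)) =
    (m 1 0 ⊗ₜ X) ⊗ₜ (m 1 0 ⊗ₜ 1) + (m 1 0 ⊗ₜ m 1 0) ⊗ₜ (m 1 0 ⊗ₜ X) := by
  rw [TensorProduct.comul_tmul, comul_eq, comul_eq, comulA_g, comulA_x]
  simp [TensorProduct.tmul_add]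

lemma comul_xg : comul (R := k) ((X : AffH k) ⊗ₜ[k] (m 1 0 : AffH k)) =
    (X ⊗ₜ m 1 0) ⊗ₜ (1 ⊗ₜ m 1 0) + (m 1 0 ⊗ₜ m 1 0) ⊗ₜ (X ⊗ₜ m 1 0) := by
  rw [TensorProduct.comul_tmul, comul_eq, comul_eq, comulA_g, comulA_x]
  simp [TensorProduct.add_tmul]

lemma comul_gg : comul (R := k) ((m 1 0 : AffH k) ⊗ₜ[k] (m 1 0 : AffH k)) =
    (m 1 0 ⊗ₜ m 1 0) ⊗ₜ (m 1 0 ⊗ₜ m 1 0) := by
  rw [TensorProduct.comul_tmul, comul_eq, comulA_g]
  simp

lemma conv_eval {C : Type v} {A : Type w} [AddCommMonoid C] [Module k C] [Coalgebra k C]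
    [Ring A] [Algebra k A] (f g : WithConv (C →ₗ[k] A)) (c : C) :
    (f * g).ofConv c = LinearMap.mul' k A (TensorProduct.map f.ofConv g.ofConv (comul c)) := rfl

lemma sig_g (l : AffH k) : sig (m 1 0 ⊗ₜ[k] l) = chi l := by
  rw [sig_tmul, s_g]

lemma sigInv_g (l : AffH k) : sigInv (m 1 0 ⊗ₜ[k] l) = chiInv l := by
  rw [sigInv_tmul, anti_g, s_ginv_ofConv]

lemma sig_X (l : AffH k) : sig (X ⊗ₜ[k] l) = 0 := by
  rw [sig_tmul, s_X]; rfl

lemma sigInv_X (l : AffH k) : sigInv (X ⊗ₜ[k] l) = 0 := by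
  rw [sigInv_tmul, anti_x, map_neg, s_m, pow_one, mul_zero, neg_zero]; rfl

lemma chi_X : chi (X : AffH k) = 1 := by rw [X, chi_m]; simp
lemma chi_g : chi (m 1 0 : AffH k) = 1 := by rw [chi_m]; simp
lemma chi_one : chi (1 : AffH k) = 1 := by rw [← m_zero, chi_m]; simp
lemma chiInv_X : chiInv (X : AffH k) = -1 := by rw [X, chiInv_m]; simp
lemma chiInv_g : chiInv (m 1 0 : AffH k) = 1 := by rw [chiInv_m]; simp
lemma chiInv_one : chiInv (1 : AffH k) = 1 := by rw [← m_zero, chiInv_m]; simp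

/-- In `H_σ`: `g ·_σ x = g x + g - g²` -/
lemma twisted_gx :
    (toConv (Algebra.linearMap k (AffH k) ∘ₗ sig) * toConv (LinearMap.mul' k (AffH k)) *
    toConv (Algebra.linearMap k (AffH k) ∘ₗ sigInv)).ofConv (m 1 0 ⊗ₜ[k] X) =
    m 1 0 + m 1 1 - m 2 0 := by
  rw [conv_eval, comul_gx, map_add, map_add, TensorProduct.map_tmul, TensorProduct.map_tmul,
    LinearMap.mul'_apply, LinearMap.mul'_apply, conv_eval, conv_eval, comul_gx, comul_gg,
    map_add, map_add, TensorProduct.map_tmul, TensorProduct.map_tmul, TensorProduct.map_tmul,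
    LinearMap.mul'_apply, LinearMap.mul'_apply, LinearMap.mul'_apply]
  simp only [LinearMap.comp_apply, LinearMap.mul'_apply, sig_g, sigInv_g, chi_X, chi_g, chi_one,
    chiInv_X, chiInv_one, Algebra.linearMap_apply, map_one, map_neg, one_mul, mul_one]
  rw [X, m_mul, m_mul]
  norm_num
  ring

/-- In `H_σ`: `x ·_σ g = g x` -/
lemma twisted_xg :
    (toConv (Algebra.linearMap k (AffH k) ∘ₗ sig) * toConv (LinearMap.mul' k (AffH k)) *
    toConv (Algebra.linearMap k (AffH k) ∘ₗ sigInv)).ofConv (X ⊗ₜ[k] m 1 0) = m 1 1 := by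
  have h1 : sigInv ((1 : AffH k) ⊗ₜ[k] m 1 0) = 1 := by
    rw [sigInv_tmul, map_one, map_one]
    change algebraMap k k (counit (R := k) (m 1 0 : AffH k)) = 1
    rw [counit_eq, counitA_m]; simp
  rw [conv_eval, comul_xg, map_add, map_add, TensorProduct.map_tmul, TensorProduct.map_tmul,
    LinearMap.mul'_apply, LinearMap.mul'_apply, conv_eval, comul_xg,
    map_add, map_add, TensorProduct.map_tmul, TensorProduct.map_tmul,
    LinearMap.mul'_apply, LinearMap.mul'_apply]
  simp only [LinearMap.comp_apply, LinearMap.mul'_apply, sig_g, sigInv_X, sig_X, chi_g,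
    h1, Algebra.linearMap_apply, map_one, map_zero, one_mul, mul_one, zero_mul, mul_zero,
    zero_add, add_zero]
  rw [X, m_mul]
  norm_num

lemma twisted_ne : (m 1 0 + m 1 1 - m 2 0 : AffH k) ≠ m 1 1 := by
  intro h
  have h1 : (m 1 0 : AffH k) = m 2 0 := by
    calc (m 1 0 : AffH k) = (m 1 0 + m 1 1 - m 2 0) + m 2 0 - m 1 1 := by ring
      _ = m 2 0 := by rw [h]; ring
  have h2 := (bas k).injective (a₁ := ((1 : ℤ), 0)) (a₂ := ((2 : ℤ), 0))
    (by rw [bas_apply, bas_apply]; exact h1)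
  simp at h2

end Pool.Agent.Helper40.Aff
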