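import Pool.Agent.Helper40.AffChi

set_option autoImplicit false

open scoped TensorProduct
open Coalgebra WithConv

universe u v w

namespace Pool.Agent.Helper40.Conv

section general
variable {k : Type u} {H : Type v} [Field k] [Ring H] [HopfAlgebra k H]

/-- evaluation of a convolution product of two bilinear forms -/
lemma conv_tmul (A B : H ⊗[k] H →ₗ[k] k) (a l : H) :
    (toConv A * toConv B).ofConv (a ⊗ₜ[k] l) =
    ∑ i ∈ (ℛ k a).index, ∑ j ∈ (ℛ k l).index,
      A ((ℛ k a).left i ⊗ₜ (ℛ k l).left j) * B ((ℛ k a).right i ⊗ₜ (ℛ k l).right j) := by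
  change LinearMap.mul' k k (TensorProduct.map A B (comul (R := k) (a ⊗ₜ[k] l))) = _
  rw [TensorProduct.comul_tmul, ← (ℛ k a).eq, ← (ℛ k l).eq]
  simp only [TensorProduct.sum_tmul, TensorProduct.tmul_sum, map_sum]
  rw [Finset.sum_comm]
  refine Finset.sum_congr rfl fun i _ => Finset.sum_congr rfl fun j _ => ?_
  simp

lemma conv_apply (φ ψ : WithConv (H →ₗ[k] k)) (l : H) :
    (φ * ψ).ofConv l = ∑ j ∈ (ℛ k l).index, φ.ofConv ((ℛ k l).left j) * ψ.ofConv ((ℛ k l).right j) :=
  Coalgebra.Repr.convMul_apply (ℛ k l) φ ψ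

/-- the bilinear form attached to a linear map `H → H*` -/
noncomputable def unc (f : H →ₗ[k] WithConv (H →ₗ[k] k)) : H ⊗[k] H →ₗ[k] k :=
  TensorProduct.lift ((WithConv.linearEquiv k (H →ₗ[k] k)).toLinearMap ∘ₗ f)

lemma unc_tmul (f : H →ₗ[k] WithConv (H →ₗ[k] k)) (a l : H) : unc f (a ⊗ₜ l) = (f a).ofConv l := by
  simp [unc]

/-- Sweedler sums as a linear map applied to the comultiplication -/
lemma sum_R {M : Type w} [AddCommMonoid M] [Module k M] (B : H →ₗ[k] H →ₗ[k] M) (h : H) :
    ∑ i ∈ (ℛ k h).index, B ((ℛ k h).left i) ((ℛ k h).right i) =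
      TensorProduct.lift B (comul h) := by
  rw [← (ℛ k h).eq]; simp

lemma unc_mul (f f' : H →ₗ[k] WithConv (H →ₗ[k] k)) :
    toConv (unc f) * toConv (unc f') =
      toConv (unc (LinearMap.mul' k _ ∘ₗ TensorProduct.map f f' ∘ₗ comul)) := by
  apply WithConv.ofConv_injective
  apply TensorProduct.ext'
  intro a l
  rw [conv_tmul]
  change _ = unc _ (a ⊗ₜ l)
  rw [unc_tmul]
  simp only [LinearMap.comp_apply]
  rw [← (ℛ k a).eq]
  simp only [map_sum, TensorProduct.map_tmul, LinearMap.mul'_apply, WithConv.ofConv_sum,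
    LinearMap.sum_apply, conv_apply, unc_tmul]

/-- pulling back along the multiplication -/
noncomputable def pull : WithConv (H →ₗ[k] k) →* WithConv (H ⊗[k] H →ₗ[k] k) where
  toFun φ := toConv (φ.ofConv ∘ₗ LinearMap.mul' k H)
  map_one' := by
    apply WithConv.ofConv_injective
    apply TensorProduct.ext'
    intro a b
    change counit (R := k) (a * b) = counit (R := k) (a ⊗ₜ[k] b)
    simp [TensorProduct.counit_tmul, mul_comm]
  map_mul' φ ψ := by
    apply WithConv.ofConv_injective
    exact LinearMap.convMul_comp_coalgHom_distrib φ ψ (Bialgebra.mulCoalgHom k H)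

/-- `φ ↦ φ ⊗ φ` -/
noncomputable def box : WithConv (H →ₗ[k] k) →* WithConv (H ⊗[k] H →ₗ[k] k) where
  toFun φ := toConv (LinearMap.mul' k k ∘ₗ TensorProduct.map φ.ofConv φ.ofConv)
  map_one' := by
    apply WithConv.ofConv_injective
    apply TensorProduct.ext'
    intro a b
    change counit (R := k) a * counit (R := k) b = counit (R := k) (a ⊗ₜ[k] b)
    simp [TensorProduct.counit_tmul, mul_comm]
  map_mul' φ ψ := by
    apply WithConv.ofConv_injective
    apply TensorProduct.ext'
    intro a l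
    rw [conv_tmul]
    change (φ * ψ).ofConv a * (φ * ψ).ofConv l = _
    rw [conv_apply, conv_apply, Finset.sum_mul_sum]
    refine Finset.sum_congr rfl fun i _ => Finset.sum_congr rfl fun j _ => ?_
    simp
    ring

lemma pull_apply (φ : WithConv (H →ₗ[k] k)) (a b : H) :
    (pull φ).ofConv (a ⊗ₜ[k] b) = φ.ofConv (a * b) := by simp [pull]

lemma box_apply (φ : WithConv (H →ₗ[k] k)) (a b : H) :
    (box φ).ofConv (a ⊗ₜ[k] b) = φ.ofConv a * φ.ofConv b := by simp [box]

end general

end Pool.Agent.Helper40.Conv
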