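import Pool.Agent.Helper40.FieldK

set_option autoImplicit false

open Function Polynomial

universe u v w

namespace Pool.Agent.Helper40.Basic.Fld

/-- `α` as a ring homomorphism -/
noncomputable abbrev αr : K →+* K := (α : K →+* K)

/-- exponents of the iterates -/
def E : ℕ → ℤ → ℕ
  | 0, _ => 1
  | n + 1, i => E n (i - 1) * N i

lemma α_pow_t (n : ℕ) (i : ℤ) : (αr ^ n) (t i) = t (i - n) ^ E n i := by
  induction n generalizing i with
  | zero => simp [E]
  | succ n ih =>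
    rw [pow_succ, RingHom.mul_def, RingHom.comp_apply]
    change (αr ^ n) (α (t i)) = _
    rw [α_t, map_pow, ih, E, ← pow_mul]
    congr 2
    push_cast
    ring

lemma α_pow_const (n : ℕ) (c : ℂ) : (αr ^ n) (algebraMap ℂ K c) = algebraMap ℂ K c := by
  induction n with
  | zero => simp
  | succ n ih =>
    rw [pow_succ, RingHom.mul_def, RingHom.comp_apply]
    change (αr ^ n) (α _) = _
    rw [AlgHom.commutes, ih]

lemma E_diag (n : ℕ) : E n n = 2 ^ (n ^ 2) := by
  induction n with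
  | zero => simp [E]
  | succ n ih =>
    rw [E]
    have : ((n + 1 : ℕ) : ℤ) - 1 = n := by push_cast; ring
    rw [this, ih, N]
    rw [← pow_add]
    congr 1
    have : ((n + 1 : ℕ) : ℤ).toNat = n + 1 := by simp
    rw [this]
    have : 2 * (n + 1) - 1 = 2 * n + 1 := by omega
    rw [this]
    ring

lemma θ_comp (n : ℕ) (c : ℂ) (hc : c ≠ 0) (hcn : c ^ (2 ^ (n ^ 2)) = 1) :
    ((θ c hc : K →+* K)).comp (αr ^ n) = αr ^ n := by
  apply ringHom_ext
  · intro a
    rw [RingHom.comp_apply, α_pow_const]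
    exact (θ c hc).commutes a
  · intro i
    rw [RingHom.comp_apply, α_pow_t]
    by_cases hi : i = n
    · subst hi
      rw [sub_self, E_diag, map_pow]
      change (θ c hc (t 0)) ^ _ = _
      rw [θ_t0, mul_pow, ← map_pow, hcn, map_one, one_mul]
    · rw [map_pow]
      change (θ c hc (t _)) ^ _ = _
      rw [θ_t]
      intro h
      apply hi
      linarith [sub_eq_zero.1 h]

lemma t_ne_zero (i : ℤ) : t i ≠ 0 := t_indep.ne_zero i

theorem lin_indep (n : ℕ) : LinearIndependent ((αr ^ n).fieldRange)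
    (fun i : Fin (2 ^ (n ^ 2)) => t 0 ^ (i : ℕ)) := by
  set q := 2 ^ (n ^ 2) with hq
  have hq0 : q ≠ 0 := by rw [hq]; positivity
  obtain ⟨ζ, hζ⟩ : ∃ ζ : ℂ, IsPrimitiveRoot ζ q := ⟨_, Complex.isPrimitiveRoot_exp q hq0⟩
  have hζ0 : ζ ≠ 0 := hζ.ne_zero hq0
  have hcomp := θ_comp n ζ hζ0 hζ.pow_eq_one
  let f : Module.End ((αr ^ n).fieldRange) K :=
    { toFun := θ ζ hζ0
      map_add' := map_add _
      map_smul' := by
        rintro ⟨_, y, rfl⟩ a
        change θ ζ hζ0 ((αr ^ n) y * a) = (αr ^ n) y * θ ζ hζ0 a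
        rw [map_mul]
        congr 1
        exact RingHom.congr_fun hcomp y }
  refine Module.End.eigenvectors_linearIndependent' f
    (fun i : Fin q => ⟨algebraMap ℂ K (ζ ^ (i : ℕ)), ⟨algebraMap ℂ K (ζ ^ (i : ℕ)),
      α_pow_const n _⟩⟩) ?_ _ ?_
  · intro i j hij
    have h1 : algebraMap ℂ K (ζ ^ (i : ℕ)) = algebraMap ℂ K (ζ ^ (j : ℕ)) :=
      congrArg Subtype.val hij
    have h2 := (algebraMap ℂ K).injective h1
    exact Fin.ext (hζ.pow_inj i.2 j.2 h2)
  · intro i
    refine ⟨?_, pow_ne_zero _ (t_ne_zero 0)⟩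
    rw [Module.End.mem_eigenspace_iff]
    change θ ζ hζ0 (t 0 ^ (i : ℕ)) = algebraMap ℂ K (ζ ^ (i : ℕ)) * t 0 ^ (i : ℕ)
    rw [map_pow, θ_t0, mul_pow, map_pow]

end Pool.Agent.Helper40.Basic.Fld
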