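import Mathlib

set_option autoImplicit false

open Function Polynomial

universe u v w

namespace Pool.Agent.Helper40.Basic.Fld

/-- the polynomial ring `ℂ[t_i : i ∈ ℤ]` -/
abbrev P := MvPolynomial ℤ ℂ
/-- its fraction field -/
abbrev K := FractionRing P

/-- the variables -/
noncomputable def t (i : ℤ) : K := algebraMap P K (MvPolynomial.X i)

lemma t_indep : AlgebraicIndependent ℂ t := by
  have h := (MvPolynomial.algebraicIndependent_X ℤ ℂ).map' 
    (f := (Algebra.algHom ℂ P K)) (FaithfulSMul.algebraMap_injective P K)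
  exact h

/-- substitution of algebraically independent elements for the variables -/
noncomputable def sub (y : ℤ → K) (hy : AlgebraicIndependent ℂ y) : K →ₐ[ℂ] K :=
  IsFractionRing.liftAlgHom (g := (MvPolynomial.aeval y : P →ₐ[ℂ] K)) hy

lemma sub_t (y : ℤ → K) (hy : AlgebraicIndependent ℂ y) (i : ℤ) : sub y hy (t i) = y i := by
  rw [sub, IsFractionRing.liftAlgHom_apply, t, IsFractionRing.lift_algebraMap]
  simp

lemma ringHom_ext {f g : K →+* K} (hc : ∀ c : ℂ, f (algebraMap ℂ K c) = g (algebraMap ℂ K c))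
    (h : ∀ i, f (t i) = g (t i)) : f = g := by
  apply IsFractionRing.ringHom_ext (A := P)
  intro x
  have : (f.comp (algebraMap P K)) = (g.comp (algebraMap P K)) := by
    apply MvPolynomial.ringHom_ext
    · intro c
      exact hc c
    · intro i
      exact h i
  exact RingHom.congr_fun this x

/-- exponents -/
def N (i : ℤ) : ℕ := 2 ^ (2 * i.toNat - 1)

lemma N_pos (i : ℤ) : 0 < N i := by unfold N; positivity

lemma y_indep : AlgebraicIndependent ℂ (fun i : ℤ => t (i - 1) ^ N i) := by
  have h1 : AlgebraicIndependent ℂ (fun i : ℤ => t (i - 1)) :=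
    t_indep.comp _ (sub_left_injective)
  have h2 := h1.polynomial_aeval_of_transcendental (f := fun i => (X : ℂ[X]) ^ N i)
    (fun i => (Polynomial.transcendental_X ℂ).pow (N_pos i))
  simpa using h2

/-- the endomorphism `α` -/
noncomputable def α : K →ₐ[ℂ] K := sub _ y_indep

lemma α_t (i : ℤ) : α (t i) = t (i - 1) ^ N i := sub_t _ _ i

lemma z_indep (c : ℂ) (hc : c ≠ 0) : AlgebraicIndependent ℂ
    (fun i : ℤ => if i = 0 then algebraMap ℂ K c * t i else t i) := by
  have h2 := t_indep.polynomial_aeval_of_transcendental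
    (f := fun i => if i = 0 then (C c * X : ℂ[X]) else X)
    (fun i => by
      split_ifs
      · apply Polynomial.transcendental
        · rw [natDegree_C_mul_X c hc]; exact one_ne_zero
        · simp [hc]
      · exact Polynomial.transcendental_X ℂ)
  convert h2 using 2 with i
  split_ifs <;> simp

/-- the automorphism `t_0 ↦ c t_0` -/
noncomputable def θ (c : ℂ) (hc : c ≠ 0) : K →ₐ[ℂ] K := sub _ (z_indep c hc)

lemma θ_t0 (c : ℂ) (hc : c ≠ 0) : θ c hc (t 0) = algebraMap ℂ K c * t 0 := by
  rw [θ, sub_t, if_pos rfl]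

lemma θ_t (c : ℂ) (hc : c ≠ 0) (i : ℤ) (hi : i ≠ 0) : θ c hc (t i) = t i := by
  rw [θ, sub_t, if_neg hi]

/-- integrality -/
lemma inv_elem {K L : Type*} [Field K] [Field L] (f : K →+* L) {x : L}
    (h : f.IsIntegralElem x) : f.IsIntegralElem x⁻¹ := by
  let _ := f.toAlgebra
  exact IsIntegral.inv (R := K) h

lemma α_integral : (α : K →+* K).IsIntegral := by
  have hpow : ∀ (n : ℕ) (x : K), 0 < n → (α : K →+* K).IsIntegralElem (x ^ n) →
      (α : K →+* K).IsIntegralElem x := by
    intro n x hn ⟨p, hp, hpx⟩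
    refine ⟨p.comp (X ^ n), hp.comp (monic_X_pow n) ?_, ?_⟩
    · rw [natDegree_X_pow]; exact hn.ne'
    · rw [eval₂_comp, eval₂_pow, eval₂_X]
      exact hpx
  have hα : ∀ x : K, (α : K →+* K).IsIntegralElem (α x) := fun x => RingHom.isIntegralElem_map _
  have ht : ∀ i, (α : K →+* K).IsIntegralElem (t i) := by
    intro i
    apply hpow (N (i + 1)) (t i) (N_pos _)
    have := hα (t (i + 1))
    rw [α_t, add_sub_cancel_right] at this
    exact this
  have hpoly : ∀ p : P, (α : K →+* K).IsIntegralElem (algebraMap P K p) := by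
    intro p
    induction p using MvPolynomial.induction_on with
    | C a =>
      have := hα (algebraMap ℂ K a)
      rw [AlgHom.commutes] at this
      exact this
    | add p q hp hq => rw [map_add]; exact RingHom.IsIntegralElem.add _ hp hq
    | mul_X p i hp => rw [map_mul]; exact RingHom.IsIntegralElem.mul _ hp (ht i)
  intro a
  obtain ⟨x, y, hy, rfl⟩ := IsFractionRing.div_surjective P a
  rw [div_eq_mul_inv]
  exact RingHom.IsIntegralElem.mul _ (hpoly x) (inv_elem _ (hpoly y))

end Pool.Agent.Helper40.Basic.Fld
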