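import Pool.Agent.Helper40.TwistedRing

set_option autoImplicit false

open Function Polynomial MulOpposite

universe u v w

namespace Pool.Agent.Helper40.Basic

namespace TwR
variable {F : Type u} [Field F] {α : F →+* F}

/-- Step A -/
lemma stepA (S : Subring (TwR α)) (hX : X ∈ S) (hN : IsNoetherianRing (S : Subring (TwR α))ᵐᵒᵖ) :
    ∃ (d : ℕ) (w : Fin d → F), ∀ r : S, ∃ c : Fin d → S,
      (r : TwR α).fst = ∑ j, w j * α (c j : TwR α).fst := by
  let I : Submodule (Sᵐᵒᵖ) (Sᵐᵒᵖ) :=
    { carrier := {s | ((unop s : S) : TwR α).fst = 0}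
      add_mem' := by
        intro a b ha hb
        simp only [Set.mem_ofPred_eq, unop_add, Subring.coe_add, add_fst] at *
        rw [ha, hb, add_zero]
      zero_mem' := by simp
      smul_mem' := by
        intro c s hs
        simp only [Set.mem_ofPred_eq, smul_eq_mul, unop_mul, Subring.coe_mul, mul_fst] at *
        rw [hs, zero_mul] }
  have hI : I.FG := hN.noetherian I
  obtain ⟨d, s, hs⟩ := Submodule.fg_iff_exists_fin_generating_family.1 hI
  have hsI : ∀ j, ((unop (s j) : S) : TwR α).fst = 0 := by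
    intro j
    have : s j ∈ I := by rw [← hs]; exact Submodule.subset_span ⟨j, rfl⟩
    exact this
  refine ⟨d, fun j => ((unop (s j) : S) : TwR α).snd, ?_⟩
  intro r
  have hrI : op (r * ⟨X, hX⟩) ∈ I := by
    change ((r * ⟨X, hX⟩ : S) : TwR α).fst = 0
    simp
  rw [← hs, Submodule.mem_span_range_iff_exists_fun] at hrI
  obtain ⟨c, hc⟩ := hrI
  refine ⟨fun j => unop (c j), ?_⟩
  have h1 : ((r * ⟨X, hX⟩ : S) : TwR α).snd = (r : TwR α).fst := by simp
  have h2 : (r * ⟨X, hX⟩ : S) = ∑ j, unop (s j) * unop (c j) := by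
    apply op_injective
    rw [← hc]
    simp
  rw [← h1, h2]
  have h3 : ∀ (T : Finset (Fin d)) (g : Fin d → S), ((∑ j ∈ T, g j : S) : TwR α).snd =
      ∑ j ∈ T, ((g j : S) : TwR α).snd := by
    intro T g
    induction T using Finset.induction_on with
    | empty => simp
    | insert a T ha ih => rw [Finset.sum_insert ha, Finset.sum_insert ha, Subring.coe_add, add_snd, ih]
  rw [h3]
  refine Finset.sum_congr rfl fun j _ => ?_
  rw [Subring.coe_mul, mul_snd, hsI j, zero_mul, zero_add]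

/-- Step B -/
lemma stepB (S : Subring (TwR α)) (d : ℕ) (w : Fin d → F)
    (h : ∀ r : S, ∃ c : Fin d → S, (r : TwR α).fst = ∑ j, w j * α (c j : TwR α).fst) (n : ℕ) :
    ∃ (κ : Type) (_ : Fintype κ) (u : κ → F), Fintype.card κ = d ^ n ∧
      ∀ r : S, ∃ c : κ → S, (r : TwR α).fst = ∑ j, u j * (α ^ n) (c j : TwR α).fst := by
  induction n with
  | zero =>
    refine ⟨Unit, inferInstance, fun _ => 1, by simp, fun r => ⟨fun _ => r, by simp⟩⟩
  | succ n ih =>
    obtain ⟨κ, hκ, u, hcard, hu⟩ := ih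
    refine ⟨Fin d × κ, inferInstance, fun p => w p.1 * α (u p.2), ?_, ?_⟩
    · rw [Fintype.card_prod, hcard, Fintype.card_fin, pow_succ']
    · intro r
      obtain ⟨c, hc⟩ := h r
      choose e he using hu
      refine ⟨fun p => e (c p.1) p.2, ?_⟩
      rw [hc, Fintype.sum_prod_type]
      refine Finset.sum_congr rfl fun j _ => ?_
      simp only
      rw [he (c j), map_sum, Finset.mul_sum]
      refine Finset.sum_congr rfl fun i _ => ?_
      rw [map_mul, pow_succ']
      simp [mul_assoc]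

theorem not_noeth (z : F) (q : ℕ → ℕ) (hq : ∀ d : ℕ, ∃ n, d ^ n < q n)
    (hind : ∀ n, LinearIndependent ((α ^ n).fieldRange) (fun i : Fin (q n) => z ^ (i : ℕ)))
    (S : Subring (TwR α)) (hX : X ∈ S) (hz : inl z ∈ S) :
    ¬ IsNoetherianRing (S : Subring (TwR α))ᵐᵒᵖ := by
  classical
  intro hN
  obtain ⟨d, w, h⟩ := stepA S hX hN
  obtain ⟨n, hn⟩ := hq d
  obtain ⟨κ, hκ, u, hcard, hu⟩ := stepB S d w h n
  have hspan : Set.range (fun i : Fin (q n) => z ^ (i : ℕ)) ≤
      Submodule.span ((α ^ n).fieldRange) (Set.range u) := by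
    rintro _ ⟨i, rfl⟩
    have hzi : inl (z ^ (i : ℕ)) ∈ S := by rw [map_pow]; exact S.pow_mem hz _
    obtain ⟨c, hc⟩ := hu ⟨_, hzi⟩
    change z ^ (i : ℕ) = _ at hc
    simp only
    rw [hc]
    refine Submodule.sum_mem _ fun j _ => ?_
    have hm : (α ^ n) ((c j : TwR α).fst) ∈ (α ^ n).fieldRange := ⟨_, rfl⟩
    have := Submodule.smul_mem (Submodule.span ((α ^ n).fieldRange) (Set.range u))
      (⟨_, hm⟩ : (α ^ n).fieldRange) (Submodule.subset_span ⟨j, rfl⟩)
    rw [mul_comm]
    exact this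
  have h1 := linearIndependent_le_span_aux' _ (hind n) (Set.range u) hspan
  rw [Fintype.card_fin] at h1
  have h2 : Fintype.card (Set.range u) ≤ Fintype.card κ := Fintype.card_range_le u
  omega

end TwR

end Pool.Agent.Helper40.Basic
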