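import Mathlib

set_option autoImplicit false

open Function Polynomial

universe u v w

namespace Pool.Agent.Helper40.Basic

/-- A left-cancellable integral element is killed by a polynomial with non-zero constant term. -/
lemma exists_poly {K : Type u} {A : Type v} [Field K] [Ring A] [Algebra K A] (a : A)
    (ha : ∀ b : A, a * b = 0 → b = 0) (hint : IsIntegral K a) :
    ∃ p : K[X], p.coeff 0 ≠ 0 ∧ aeval a p = 0 := by
  obtain ⟨p, hp, hpa⟩ := hint
  obtain ⟨q, hq, hnd⟩ := exists_eq_pow_rootMultiplicity_mul_and_not_dvd p hp.ne_zero 0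
  rw [C_0, sub_zero] at hq hnd
  refine ⟨q, fun h => hnd (X_dvd_iff.2 h), ?_⟩
  have h1 : aeval a p = 0 := hpa
  rw [hq, map_mul, map_pow, aeval_X] at h1
  have : ∀ n : ℕ, ∀ b : A, a ^ n * b = 0 → b = 0 := by
    intro n
    induction n with
    | zero => intro b hb; simpa using hb
    | succ n ih => intro b hb; rw [pow_succ, mul_assoc] at hb; exact ha _ (ih _ hb)
  exact this _ _ h1

lemma stable_preimage {K : Type u} {L : Type v} {V : Type w} [Field K] [Field L] (α : K →+* L)
    (hα : α.IsIntegral) [AddCommGroup V] [Module L V] [Module.Finite L V] (Φ : V →ₗ[L] V)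
    (hΦ : Injective Φ) (N : AddSubgroup V) (hNα : ∀ (c : K) (v : V), v ∈ N → α c • v ∈ N)
    (hN : ∀ v ∈ N, Φ v ∈ N) (v : V) (hv : Φ v ∈ N) : v ∈ N := by
  let _ : Algebra K L := α.toAlgebra
  let _ : Module K V := Module.compHom V α
  have _ : IsScalarTower K L V := ⟨fun c l v => by
    change (α c * l) • v = α c • l • v
    rw [mul_smul]⟩
  have _ : Algebra.IsIntegral K L := ⟨hα⟩
  have hint : IsIntegral K Φ := isIntegral_trans (A := L) Φ (Algebra.IsIntegral.isIntegral Φ)
  obtain ⟨p, hp0, hp⟩ := exists_poly (K := K) Φ (by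
    intro b hb
    ext v
    apply hΦ
    have := LinearMap.congr_fun hb v
    simpa using this) hint
  have hpoly : ∀ (q : K[X]) (w : V), w ∈ N → (aeval Φ q) w ∈ N := by
    intro q
    induction q using Polynomial.induction_on' with
    | add p q hp hq =>
      intro w hw
      rw [map_add, LinearMap.add_apply]
      exact N.add_mem (hp w hw) (hq w hw)
    | monomial n a =>
      intro w hw
      rw [aeval_monomial]
      have h1 : ∀ n : ℕ, (Φ ^ n) w ∈ N := by
        intro n
        induction n with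
        | zero => simpa using hw
        | succ n ih => rw [pow_succ']; exact hN _ ih
      exact hNα a _ (h1 n)
  have h2 : (aeval Φ (divX p * X + C (p.coeff 0))) v = 0 := by
    rw [divX_mul_X_add, hp]; rfl
  rw [map_add, map_mul, aeval_X, aeval_C, LinearMap.add_apply] at h2
  have h3 : α (p.coeff 0) • v ∈ N := by
    have : (algebraMap K (Module.End L V)) (p.coeff 0) v = - ((aeval Φ (divX p)) * Φ) v :=
      eq_neg_of_add_eq_zero_right h2
    have h4 : (algebraMap K (Module.End L V)) (p.coeff 0) v = α (p.coeff 0) • v := rfl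
    rw [← h4, this]
    exact N.neg_mem (hpoly _ _ hv)
  have h5 := hNα (p.coeff 0)⁻¹ _ h3
  rwa [smul_smul, ← map_mul, inv_mul_cancel₀ hp0, map_one, one_smul] at h5

/-- Linear algebra lemma. -/
lemma two_maps {F : Type u} {V : Type v} {Q : Type w} [Field F] [AddCommGroup V] [Module F V]
    [AddCommGroup Q] [Module F Q] [Module.Finite F Q] (g₁ g₂ : V →ₗ[F] Q)
    (hk : LinearMap.ker g₁ ≤ LinearMap.ker g₂) (h2 : Surjective g₂) :
    Surjective g₁ ∧ LinearMap.ker g₂ ≤ LinearMap.ker g₁ := by
  let e₁ : (V ⧸ LinearMap.ker g₁) →ₗ[F] Q := (LinearMap.ker g₁).liftQ g₁ le_rfl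
  let e₂ : (V ⧸ LinearMap.ker g₁) →ₗ[F] Q := (LinearMap.ker g₁).liftQ g₂ hk
  have he₁ : Injective e₁ := by
    rw [← LinearMap.ker_eq_bot]
    exact Submodule.ker_liftQ_eq_bot _ _ _ le_rfl
  have he₂ : Surjective e₂ := by
    intro q
    obtain ⟨v, rfl⟩ := h2 q
    exact ⟨Submodule.Quotient.mk v, rfl⟩
  have he₂' : Injective e₂ := OrzechProperty.injective_of_surjective_of_injective e₁ e₂ he₁ he₂
  let E : (V ⧸ LinearMap.ker g₁) ≃ₗ[F] Q := LinearEquiv.ofBijective e₂ ⟨he₂', he₂⟩
  have _ : Module.Finite F (V ⧸ LinearMap.ker g₁) := Module.Finite.equiv E.symm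
  have he₁' : Surjective e₁ :=
    (LinearMap.injective_iff_surjective_of_finrank_eq_finrank (E.finrank_eq)).1 he₁
  constructor
  · intro q
    obtain ⟨y, hy⟩ := he₁' q
    obtain ⟨v, rfl⟩ := Submodule.Quotient.mk_surjective _ y
    exact ⟨v, hy⟩
  · intro v hv
    have : e₂ (Submodule.Quotient.mk v) = 0 := hv
    have h0 : (Submodule.Quotient.mk v : V ⧸ LinearMap.ker g₁) = 0 := by
      apply he₂'
      rw [this, map_zero]
    exact (Submodule.Quotient.mk_eq_zero _).1 h0

end Pool.Agent.Helper40.Basic
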