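import Pool.Agent.Helper40.OrzechLemmas

set_option autoImplicit false

open Function Polynomial

universe u v w

namespace Pool.Agent.Helper40.Basic

section
variable {F : Type u} {S : Type v} [Field F] [Ring S] (α : F →+* F) (ι : F →+* S) (x : S)

theorem orzech_main (hα : α.IsIntegral) (hx : x * x = 0) (hc : ∀ a, ι a * x = x * ι (α a))
    (hs : ∀ s, ∃ a b, s = ι a + x * ι b)
    {M : Type w} [AddCommGroup M] [Module S M] [Module.Finite S M] (A : Submodule S M)
    (f : A →ₗ[S] M) (hf : Surjective f) : Injective f := by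
  let _ : Module F M := Module.compHom M ι
  have hι : ∀ (a : F) (m : M), a • m = ι a • m := fun _ _ => rfl
  have hxx : ∀ m : M, x • x • m = 0 := fun m => by rw [smul_smul, hx, zero_smul]
  have hxc : ∀ (a : F) (m : M), a • (x • m) = x • (α a • m) := fun a m => by
    rw [hι, hι, smul_smul, smul_smul, hc]
  -- the subspaces `W = x M` and `Z = soc M`
  let W : Submodule F M :=
    { carrier := {m | ∃ m', m = x • m'}
      add_mem' := by
        rintro _ _ ⟨a, rfl⟩ ⟨b, rfl⟩
        exact ⟨a + b, (smul_add _ _ _).symm⟩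
      zero_mem' := ⟨0, (smul_zero _).symm⟩
      smul_mem' := by
        rintro c _ ⟨a, rfl⟩
        exact ⟨α c • a, hxc c a⟩ }
  let Z : Submodule F M :=
    { carrier := {m | ∀ b : F, x • (b • m) = 0}
      add_mem' := by
        intro a b ha hb c
        rw [smul_add, smul_add, ha, hb, add_zero]
      zero_mem' := by
        intro b; simp
      smul_mem' := by
        intro c m hm b
        rw [smul_smul]; exact hm _ }
  have hWZ : W ≤ Z := by
    rintro _ ⟨m, rfl⟩ b
    rw [hxc, hxx]
  have hxW : ∀ w ∈ W, ∀ b : F, x • (b • w) = 0 := fun w hw b => hWZ hw b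
  have hxW' : ∀ w ∈ W, x • w = 0 := by
    rintro _ ⟨m, rfl⟩; exact hxx m
  have hxmem : ∀ m : M, x • m ∈ W := fun m => ⟨m, rfl⟩
  -- finiteness
  have hfinW : Module.Finite F (M ⧸ W) := by
    obtain ⟨s, hs'⟩ := (Module.Finite.fg_top : (⊤ : Submodule S M).FG)
    let T : Submodule F M := Submodule.span F (s : Set M) ⊔ W
    have hT : ∀ (σ : S) (t : M), t ∈ T → σ • t ∈ T := by
      intro σ t ht
      obtain ⟨a, b, rfl⟩ := hs σ
      rw [add_smul, mul_smul]
      exact T.add_mem (T.smul_mem a ht) ((le_sup_right : W ≤ T) (hxmem _))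
    let T' : Submodule S M :=
      { carrier := T
        add_mem' := T.add_mem
        zero_mem' := T.zero_mem
        smul_mem' := fun σ t ht => hT σ t ht }
    have hT' : T' = ⊤ := by
      rw [eq_top_iff, ← hs', Submodule.span_le]
      intro y hy
      exact (le_sup_left : Submodule.span F (s : Set M) ≤ T) (Submodule.subset_span hy)
    have hTtop : ∀ m : M, m ∈ T := fun m => by
      have : m ∈ T' := by rw [hT']; trivial
      exact this
    have : Module.Finite F (Submodule.span F (s : Set M)) := 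
      Module.Finite.span_of_finite F s.finite_toSet
    refine Module.Finite.of_surjective
      (W.mkQ ∘ₗ (Submodule.span F (s : Set M)).subtype) ?_
    intro q
    obtain ⟨m, rfl⟩ := Submodule.Quotient.mk_surjective _ q
    obtain ⟨y, hy, z, hz, rfl⟩ := Submodule.mem_sup.1 (hTtop m)
    refine ⟨⟨y, hy⟩, ?_⟩
    change (Submodule.Quotient.mk y : M ⧸ W) = Submodule.Quotient.mk (y + z)
    rw [Submodule.Quotient.eq]
    simpa using hz
  have hfinZ : Module.Finite F (M ⧸ Z) := by
    refine Module.Finite.of_surjective (Submodule.factor hWZ) (Submodule.factor_surjective hWZ)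
  -- the submodule `A` and the map `f` over `F`
  let A' : Submodule F M :=
    { carrier := A
      add_mem' := A.add_mem
      zero_mem' := A.zero_mem
      smul_mem' := fun a m hm => A.smul_mem (ι a) hm }
  let f' : A' →ₗ[F] M :=
    { toFun := fun a => f ⟨a.1, a.2⟩
      map_add' := fun a b => by
        rw [← map_add]; rfl
      map_smul' := fun c a => by
        have := f.map_smul (ι c) ⟨a.1, a.2⟩
        exact this }
  have hf' : Surjective f' := hf
  have hfx : ∀ (a : M) (ha : a ∈ A), x • f' ⟨a, ha⟩ = f' ⟨x • a, A.smul_mem x ha⟩ := by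
    intro a ha
    exact (f.map_smul x ⟨a, ha⟩).symm
  -- step 1
  obtain ⟨h1, -⟩ := two_maps (Z.mkQ ∘ₗ A'.subtype) (Z.mkQ ∘ₗ f') (by
    rintro ⟨a, ha⟩ hk
    have ha' : a ∈ Z := (Submodule.Quotient.mk_eq_zero Z).1 hk
    apply (Submodule.Quotient.mk_eq_zero Z).2
    intro b
    rw [← map_smul]
    change x • f' ⟨b • a, _⟩ = 0
    rw [hfx]
    have h0 := ha' b
    have : (⟨x • (b • a), A.smul_mem x (A'.smul_mem b ha)⟩ : A') = 0 := Subtype.ext h0
    rw [this, map_zero])
    ((Submodule.mkQ_surjective Z).comp hf')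
  -- step 2
  have h2 : ∀ m : M, ∃ a ∈ A, x • m = x • a := by
    intro m
    obtain ⟨⟨a, ha⟩, hq⟩ := h1 (Submodule.Quotient.mk m)
    refine ⟨a, ha, ?_⟩
    have hq' : (Submodule.Quotient.mk a : M ⧸ Z) = Submodule.Quotient.mk m := hq
    rw [Submodule.Quotient.eq] at hq'
    have := hq' 1
    rw [one_smul, smul_sub, sub_eq_zero] at this
    exact this.symm
  -- step 3
  obtain ⟨h3, h4⟩ := two_maps (W.mkQ ∘ₗ A'.subtype) (W.mkQ ∘ₗ f') (by
    rintro ⟨w, hw⟩ hk
    obtain ⟨m, hm⟩ : w ∈ W := (Submodule.Quotient.mk_eq_zero W).1 hk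
    obtain ⟨a, ha, hma⟩ := h2 m
    apply (Submodule.Quotient.mk_eq_zero W).2
    have : (⟨w, hw⟩ : A') = ⟨x • a, A.smul_mem x ha⟩ := Subtype.ext (hm.trans hma)
    rw [this, ← hfx a ha]
    exact hxmem _)
    ((Submodule.mkQ_surjective W).comp hf')
  have hA : ∀ m : M, m ∈ A := by
    intro m
    obtain ⟨⟨a, ha⟩, hq⟩ := h3 (Submodule.Quotient.mk m)
    have hq' : (Submodule.Quotient.mk a : M ⧸ W) = Submodule.Quotient.mk m := hq
    rw [Submodule.Quotient.eq] at hq'
    obtain ⟨m', hm'⟩ := hq'
    obtain ⟨a', ha', hma'⟩ := h2 m'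
    have : m = a - x • a' := by rw [← hma', ← hm']; abel
    rw [this]
    exact A.sub_mem ha (A.smul_mem x ha')
  -- step 4
  let F' : M →ₗ[F] M :=
    { toFun := fun m => f' ⟨m, hA m⟩
      map_add' := fun a b => by rw [← map_add]; rfl
      map_smul' := fun c a => by
        rw [RingHom.id_apply, ← map_smul]; rfl }
  have hF'x : ∀ m, F' (x • m) = x • F' m := fun m => (hfx m (hA m)).symm
  have hF'W : W ≤ W.comap F' := by
    rintro _ ⟨m, rfl⟩
    exact ⟨F' m, hF'x m⟩
  have hF's : Surjective F' := by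
    intro m
    obtain ⟨⟨a, ha⟩, h⟩ := hf' m
    exact ⟨a, h⟩
  let Φ : (M ⧸ W) →ₗ[F] (M ⧸ W) := W.mapQ W F' hF'W
  have hΦs : Surjective Φ := by
    intro q
    obtain ⟨m, rfl⟩ := Submodule.Quotient.mk_surjective _ q
    obtain ⟨a, rfl⟩ := hF's m
    exact ⟨Submodule.Quotient.mk a, rfl⟩
  have hΦ : Injective Φ := LinearMap.injective_iff_surjective.2 hΦs
  let N : AddSubgroup (M ⧸ W) :=
    { carrier := {v | ∀ m : M, (Submodule.Quotient.mk m : M ⧸ W) = v → x • m = 0}
      add_mem' := by
        intro a b ha hb m hm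
        obtain ⟨a', rfl⟩ := Submodule.Quotient.mk_surjective _ a
        obtain ⟨b', rfl⟩ := Submodule.Quotient.mk_surjective _ b
        rw [← Submodule.Quotient.mk_add, Submodule.Quotient.eq] at hm
        have h5 := hxW' _ hm
        rw [smul_sub, smul_add, ha a' rfl, hb b' rfl, add_zero, sub_zero] at h5
        exact h5
      zero_mem' := by
        intro m hm
        exact hxW' _ ((Submodule.Quotient.mk_eq_zero W).1 hm)
      neg_mem' := by
        intro a ha m hm
        have := ha (-m) (by rw [Submodule.Quotient.mk_neg, hm, neg_neg])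
        rw [smul_neg, neg_eq_zero] at this
        exact this }
  have hNmk : ∀ m : M, x • m = 0 → (Submodule.Quotient.mk m : M ⧸ W) ∈ N := by
    intro m hm m' hm'
    rw [Submodule.Quotient.eq] at hm'
    have := hxW' _ hm'
    rw [smul_sub, hm, sub_zero] at this
    exact this
  have hkey : ∀ m : M, x • (F' m) = 0 → x • m = 0 := by
    intro m hm
    have : (Submodule.Quotient.mk m : M ⧸ W) ∈ N := by
      refine stable_preimage α hα Φ hΦ N ?_ ?_ _ ?_
      · intro c v hv
        obtain ⟨v', rfl⟩ := Submodule.Quotient.mk_surjective _ v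
        rw [← Submodule.Quotient.mk_smul]
        apply hNmk
        rw [← hxc, hv v' rfl, smul_zero]
      · intro v hv
        obtain ⟨v', rfl⟩ := Submodule.Quotient.mk_surjective _ v
        change (Submodule.Quotient.mk (F' v') : M ⧸ W) ∈ N
        apply hNmk
        rw [← hF'x, hv v' rfl, map_zero]
      · exact hNmk _ hm
    exact this m rfl
  -- conclusion
  have hinj : ∀ a : A, f a = 0 → a = 0 := by
    rintro ⟨a, ha⟩ h0
    have h5 : (⟨a, ha⟩ : A') ∈ LinearMap.ker (W.mkQ ∘ₗ f') := by
      have : f' ⟨a, ha⟩ = 0 := h0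
      rw [LinearMap.mem_ker, LinearMap.comp_apply, this, map_zero]
    have h6 := h4 h5
    obtain ⟨m, hm⟩ : a ∈ W := (Submodule.Quotient.mk_eq_zero W).1 h6
    have h7 : F' (x • m) = 0 := by
      have : F' a = 0 := h0
      rwa [hm] at this
    rw [hF'x] at h7
    exact Subtype.ext (hm.trans (hkey m h7))
  intro a b hab
  have := hinj (a - b) (by rw [map_sub, hab, sub_self])
  exact sub_eq_zero.1 this

end

end Pool.Agent.Helper40.Basic
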