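import Pool.Agent.Helper40.OrzechMain

set_option autoImplicit false

open Function Polynomial MulOpposite

universe u v w

namespace Pool.Agent.Helper40.Basic

/-- The ring `F ⊕ F x` with `x² = 0` and `x a = α(a) x`. -/
@[ext] structure TwR {F : Type u} [Field F] (α : F →+* F) where
  /-- the coefficient of `1` -/
  fst : F
  /-- the coefficient of `x` -/
  snd : F

namespace TwR
variable {F : Type u} [Field F] {α : F →+* F}

instance : Zero (TwR α) := ⟨⟨0, 0⟩⟩
instance : One (TwR α) := ⟨⟨1, 0⟩⟩
instance : Add (TwR α) := ⟨fun a b => ⟨a.fst + b.fst, a.snd + b.snd⟩⟩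
instance : Neg (TwR α) := ⟨fun a => ⟨-a.fst, -a.snd⟩⟩
instance : Mul (TwR α) := ⟨fun a b => ⟨a.fst * b.fst, a.fst * b.snd + a.snd * α b.fst⟩⟩

@[simp] lemma zero_fst : (0 : TwR α).fst = 0 := rfl
@[simp] lemma zero_snd : (0 : TwR α).snd = 0 := rfl
@[simp] lemma one_fst : (1 : TwR α).fst = 1 := rfl
@[simp] lemma one_snd : (1 : TwR α).snd = 0 := rfl
@[simp] lemma add_fst (a b : TwR α) : (a + b).fst = a.fst + b.fst := rfl
@[simp] lemma add_snd (a b : TwR α) : (a + b).snd = a.snd + b.snd := rfl
@[simp] lemma neg_fst (a : TwR α) : (-a).fst = -a.fst := rfl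
@[simp] lemma neg_snd (a : TwR α) : (-a).snd = -a.snd := rfl
@[simp] lemma mul_fst (a b : TwR α) : (a * b).fst = a.fst * b.fst := rfl
@[simp] lemma mul_snd (a b : TwR α) : (a * b).snd = a.fst * b.snd + a.snd * α b.fst := rfl

instance : AddCommGroup (TwR α) where
  add_assoc a b c := by ext <;> simp [add_assoc]
  zero_add a := by ext <;> simp
  add_zero a := by ext <;> simp
  add_comm a b := by ext <;> simp [add_comm]
  neg_add_cancel a := by ext <;> simp
  nsmul := nsmulRec
  zsmul := zsmulRec

instance : Ring (TwR α) where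
  zsmul := zsmulRec
  left_distrib a b c := by ext <;> simp <;> ring
  right_distrib a b c := by ext <;> simp <;> ring
  zero_mul a := by ext <;> simp
  mul_zero a := by ext <;> simp
  mul_assoc a b c := by ext <;> simp <;> ring
  one_mul a := by ext <;> simp
  mul_one a := by ext <;> simp
  neg_add_cancel a := by ext <;> simp

/-- the inclusion `F → R` -/
def inl : F →+* TwR α where
  toFun a := ⟨a, 0⟩
  map_one' := rfl
  map_mul' a b := by ext <;> simp
  map_zero' := rfl
  map_add' a b := by ext <;> simp

/-- the projection `R → F` -/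
def pr : TwR α →+* F where
  toFun a := a.fst
  map_one' := rfl
  map_mul' a b := rfl
  map_zero' := rfl
  map_add' a b := rfl

/-- the element `x` -/
def X : TwR α := ⟨0, 1⟩

@[simp] lemma inl_fst (a : F) : (inl a : TwR α).fst = a := rfl
@[simp] lemma inl_snd (a : F) : (inl a : TwR α).snd = 0 := rfl
@[simp] lemma X_fst : (X : TwR α).fst = 0 := rfl
@[simp] lemma X_snd : (X : TwR α).snd = 1 := rfl

/-- left noetherian -/
instance : IsNoetherianRing (TwR α) := by
  let _ : Module F (TwR α) := Module.compHom (TwR α) (inl (α := α))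
  have hsm : ∀ (a : F) (r : TwR α), a • r = inl a * r := fun _ _ => rfl
  have _ : IsScalarTower F (TwR α) (TwR α) := ⟨fun a r s => by
    rw [hsm, hsm, smul_eq_mul, smul_eq_mul, mul_assoc]⟩
  let e : (F × F) →ₗ[F] TwR α :=
    { toFun := fun p => ⟨p.1, p.2⟩
      map_add' := fun p q => rfl
      map_smul' := fun c p => by
        rw [RingHom.id_apply, hsm]
        ext <;> simp }
  have hfin : Module.Finite F (TwR α) :=
    Module.Finite.of_surjective e (fun r => ⟨(r.fst, r.snd), rfl⟩)
  have : IsNoetherian F (TwR α) := inferInstance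
  exact isNoetherian_of_tower F this

/-- right Orzech property -/
theorem orzech_op (hα : α.IsIntegral) {M : Type w} [AddCommGroup M] [Module (TwR α)ᵐᵒᵖ M]
    [Module.Finite (TwR α)ᵐᵒᵖ M] (A : Submodule (TwR α)ᵐᵒᵖ M) (f : A →ₗ[(TwR α)ᵐᵒᵖ] M)
    (hf : Surjective f) : Injective f := by
  let ι : F →+* (TwR α)ᵐᵒᵖ :=
    { toFun := fun a => op (inl a)
      map_one' := rfl
      map_mul' := fun a b => by rw [mul_comm, map_mul, op_mul]
      map_zero' := rfl
      map_add' := fun a b => by rw [map_add, op_add] }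
  refine orzech_main α ι (op (X : TwR α)) hα ?_ ?_ ?_ A f hf
  · rw [← op_mul]
    have : (X * X : TwR α) = 0 := by ext <;> simp
    rw [this, op_zero]
  · intro a
    change op (inl a) * op X = op X * op (inl (α a))
    rw [← op_mul, ← op_mul]
    congr 1
    ext <;> simp
  · intro s
    refine ⟨(unop s).fst, (unop s).snd, ?_⟩
    change s = op (inl _) + op X * op (inl _)
    rw [← op_mul, ← op_add]
    apply unop_injective
    rw [unop_op]
    ext <;> simp

end TwR

end Pool.Agent.Helper40.Basic
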